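import Pool.Agent.Helper4.CI.Goals
import Pool.Agent.Helper20.Mono.Final3

/-! # Final assembly -/

namespace Mono.CI

open Finset Mono Mono.Fin20

variable {N k : ℕ}

/-- The exponent of the primitive `m`-th roots of unity in the zeta function of the slice. -/
noncomputable def ESC (A : Option (Fin k) → Finset (Fin N → ℤ)) (K : Finset (Fin N))
    (b : Fin N → ℝ) (m : ℕ) : ℤ :=
  ∑ φ ∈ (cellsC A K b).filter (fun φ => dimC (prC K φ) + 1 = (csC (prC K φ)).card ∧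
      m ∣ latC (prC K φ)), chi1 (prC K φ)

theorem zop_of_ESC (hC : CycloLemma) (hL : LatCNe) {A : Option (Fin k) → Finset (Fin N → ℤ)}
    {K : Finset (Fin N)} {b : Fin N → ℝ} {m : ℕ} (hm : m ≠ 0) {ω : ℂ}
    (hω : IsPrimitiveRoot ω m) (hE : ESC A K b m ≠ 0) : ZeroOrPole (zetaSC A K b) ω := by
  refine hC (Option (Fin k) → Finset (Fin N → ℤ)) ((cellsC A K b).filter
    (fun φ => dimC (prC K φ) + 1 = (csC (prC K φ)).card)) (fun φ => latC (prC K φ))
    (fun φ => chi1 (prC K φ)) m ω ?_ hω hm ?_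
  · intro φ hφ
    exact hL N k A b K φ (Finset.mem_filter.1 hφ).1
  · rw [Finset.filter_filter]
    exact hE

/-- If there is a cell then no point of `A none` is supported on `K`. -/
theorem no_supp_of_cellC {A : Option (Fin k) → Finset (Fin N → ℤ)} {K : Finset (Fin N)}
    {b : Fin N → ℝ} {φ : Option (Fin k) → Finset (Fin N → ℤ)} (hφ : φ ∈ cellsC A K b)
    {v : Fin N → ℤ} (hv : v ∈ A none) (hK : ∀ i, i ∉ K → v i = 0) : False := by
  classical
  simp only [cellsC, mem_filter] at hφ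
  obtain ⟨_, κ, l, h1, _, h3, _⟩ := hφ
  have h0 : κ ⬝ᵥ toR v = 0 := by
    refine Finset.sum_eq_zero fun i _ => ?_
    by_cases hi : i ∈ K
    · rw [(h1 i hi).1, zero_mul]
    · simp [hK i hi]
  rcases h3 v hv with h | ⟨h, _⟩
  · rw [h0] at h; linarith
  · rw [h0] at h; linarith

theorem card_Kh (K : Finset (Fin N)) : (Kh k K).card = K.card :=
  Finset.card_image_of_injective _ (Fin.castAdd_injective N k)

theorem Kh_inj {K K' : Finset (Fin N)} (h : Kh k K = Kh k K') : K = K' :=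
  Finset.image_injective (Fin.castAdd_injective N k) h

open Classical in
/-- The part of the multiplicity at the stratum `K`. -/
theorem stratum_partC (hCS : CellSumC) {A : Option (Fin k) → Finset (Fin N → ℤ)}
    {b : Fin N → ℝ} {L : ℕ} {b' : Fin (N + k) → ℝ} {Z : Finset (Fin (N + k) → ℤ)}
    {Φ' Φ : Fan (N + k)} (hT : TriC A b L b' Z Φ' Φ) (K : Finset (Fin N)) (m : ℕ)
    (hE : ESC A K b m = 0) :
    ∑ τ ∈ Φ.faces.filter (fun τ => τ ∩ Z = eK (Kh k K) ∧ ¬ τ ⊆ Hset A Z ∧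
      τ.card = (cs τ).card ∧ m ∣ latDistZ (Hset A Z) τ),
      (-1) ^ (N + k - τ.card) * (volZ (Hset A Z) τ : ℤ) = 0 := by
  have h1 := hCS N k A b L b' Z Φ' Φ hT K m
  unfold ESC at hE
  rw [hE] at h1
  have h2 : ∑ τ ∈ Φ.faces.filter (fun τ => τ ∩ Z = eK (Kh k K) ∧ ¬ τ ⊆ Hset A Z ∧
      τ.card = (cs τ).card ∧ m ∣ latDistZ (Hset A Z) τ),
      (-1) ^ (N + k - τ.card) * (volZ (Hset A Z) τ : ℤ) =
      (-1) ^ (N + k - K.card - 1) * ∑ τ ∈ Φ.faces.filter (fun τ => τ ∩ Z = eK (Kh k K) ∧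
        ¬ τ ⊆ Hset A Z ∧ τ.card = (cs τ).card ∧ m ∣ latDistZ (Hset A Z) τ),
        (-1) ^ ((τ \ Z).card - 1) * (volZ (Hset A Z) τ : ℤ) := by
    rw [Finset.mul_sum]
    refine Finset.sum_congr rfl fun τ hτ => ?_
    rw [mem_filter] at hτ
    obtain ⟨hf, hK, hZ, _, _⟩ := hτ
    obtain ⟨F, hF, hs⟩ := isFace_of_mem hf
    have hc1 : τ.card ≤ N + k := (Finset.card_le_card hs).trans (Φ.mx_card F hF).le
    have hc2 : (τ \ Z).card + (τ ∩ Z).card = τ.card := Finset.card_sdiff_add_card_inter τ Z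
    rw [hK, card_eK, card_Kh] at hc2
    have hc3 : 0 < (τ \ Z).card := Finset.card_pos.2 (by
      rw [Finset.sdiff_nonempty]
      exact fun h => hZ (h.trans Finset.subset_union_left))
    rw [← mul_assoc, ← pow_add]
    congr 1
    have e1 : N + k - K.card - 1 + ((τ \ Z).card - 1) =
        (N + k - τ.card) + 2 * ((τ \ Z).card - 1) := by
      omega
    rw [e1, pow_add, pow_mul]
    simp
  rw [h2, ← h1, mul_zero]

/-- A face which is not contained in `H` has a generator of colour `none`. -/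
theorem exists_none {A : Option (Fin k) → Finset (Fin N → ℤ)}
    {b : Fin N → ℝ} {L : ℕ} {b' : Fin (N + k) → ℝ} {Z : Finset (Fin (N + k) → ℤ)}
    {Φ' Φ : Fan (N + k)} (hT : TriC A b L b' Z Φ' Φ) {τ : Finset (Fin (N + k) → ℤ)}
    (hτ : τ ∈ Φ.faces) (hH : ¬ τ ⊆ Hset A Z) : ∃ t ∈ A none, lift none t ∈ τ := by
  obtain ⟨F, hF, hs⟩ := isFace_of_mem hτ
  obtain ⟨u, hu, huH⟩ := Finset.not_subset.1 hH
  have huv := Φ.mx_sub F hF (hs hu)
  rw [hT.vert, mem_union] at huv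
  have huZ : u ∉ Z := fun h => huH (mem_union_left _ h)
  have h1 := huv.resolve_right huZ
  simp only [cay, mem_biUnion, mem_univ, true_and, mem_image] at h1
  obtain ⟨c, v, hv, rfl⟩ := h1
  rcases c with _ | j
  · exact ⟨v, hv, hu⟩
  · exfalso
    apply huH
    simp only [Hset, mem_union, mem_biUnion, mem_univ, true_and, mem_image]
    exact Or.inr ⟨j, v, hv, rfl⟩

open Classical in
/-- If the exponents of all slices vanish then so does the multiplicity attached to `S ⊆ Z`. -/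
theorem mult_zeroC (hCS : CellSumC) (hR : StarColour)
    {A : Option (Fin k) → Finset (Fin N → ℤ)}
    {b : Fin N → ℝ} {L : ℕ} {b' : Fin (N + k) → ℝ} {Z : Finset (Fin (N + k) → ℤ)}
    {Φ' Φ : Fan (N + k)} (hT : TriC A b L b' Z Φ' Φ) (m : ℕ)
    {S : Finset (Fin (N + k) → ℤ)} (hSZ : S ⊆ Z)
    (hE : ∀ K : Finset (Fin N), ESC A K b m = 0) :
    Φ.mult (Hset A Z) S m = 0 := by
  have hZ := hT.tri.2.2.2.2.2.1.2.1
  unfold Fan.mult
  let κ : Finset (Fin (N + k) → ℤ) → Finset (Fin N) := fun τ =>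
    univ.filter (fun i => (Pi.single (Fin.castAdd k i) 1 : Fin (N + k) → ℤ) ∈ τ ∩ Z)
  have hκ : ∀ τ ∈ Φ.faces, ¬ τ ⊆ Hset A Z → τ ∩ Z = eK (Kh k (κ τ)) := by
    intro τ hτ hH
    obtain ⟨t, ht, htτ⟩ := exists_none hT hτ hH
    obtain ⟨F, hF, hs⟩ := isFace_of_mem hτ
    ext u
    rw [mem_eK]
    constructor
    · intro hu
      obtain ⟨i, rfl⟩ := hZ u (mem_inter.1 hu).2
      refine ⟨i, ?_, rfl⟩
      simp only [Kh, mem_image]
      induction i using Fin.addCases with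
      | left i => exact ⟨i, by simp only [κ, mem_filter]; exact ⟨mem_univ _, hu⟩, rfl⟩
      | right j =>
        exact absurd (hs (mem_inter.1 hu).1) (hR N k A b L b' Z Φ' Φ hT F hF t ht (hs htτ) j)
    · rintro ⟨i, hi, rfl⟩
      simp only [Kh, mem_image] at hi
      obtain ⟨i, hi, rfl⟩ := hi
      exact (mem_filter.1 hi).2
  rw [← Finset.sum_fiberwise (Φ.faces.filter (fun τ => S ⊆ τ ∧ ¬ τ ⊆ Hset A Z ∧
    τ.card = (cs τ).card ∧ m ∣ latDistZ (Hset A Z) τ)) κ]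
  refine Finset.sum_eq_zero fun K _ => ?_
  by_cases hK : S ⊆ eK (Kh k K)
  · rw [← stratum_partC hCS hT K m (hE K)]
    refine Finset.sum_congr ?_ fun _ _ => rfl
    ext τ
    simp only [mem_filter]
    constructor
    · rintro ⟨⟨h1, _, h3, h4, h5⟩, h6⟩
      exact ⟨h1, by rw [hκ τ h1 h3, h6], h3, h4, h5⟩
    · rintro ⟨h1, h2, h3, h4, h5⟩
      refine ⟨⟨h1, ?_, h3, h4, h5⟩, ?_⟩
      · intro u hu
        have hu' : u ∈ eK (Kh k K) := hK hu
        rw [← h2] at hu'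
        exact (mem_inter.1 hu').1
      · exact Kh_inj (eK_inj (by rw [← hκ τ h1 h3, h2]))
  · refine Finset.sum_eq_zero fun τ hτ => ?_
    exfalso
    simp only [mem_filter] at hτ
    apply hK
    intro u hu
    rw [← hτ.2, ← hκ τ hτ.1.1 hτ.1.2.2.1]
    exact mem_inter.2 ⟨hτ.1.2.1 hu, hSZ hu⟩

theorem sys_good (h : MvPolynomial (Fin N) ℂ) (g : Fin k → MvPolynomial (Fin N) ℂ)
    (hh : h ≠ 0) (h0 : h.coeff 0 = 0) (hg : ∀ j, g j ≠ 0) (hg0 : ∀ j, (g j).coeff 0 = 0)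
    (hC : ∀ d ∈ h.support, ∀ j, ∃ e ∈ (g j).support, e.support ⊆ d.support) :
    Good (sys h g) := by
  have hne : ∀ f : MvPolynomial (Fin N) ℂ, f ≠ 0 → (expo f).Nonempty := by
    intro f hf
    obtain ⟨d, hd⟩ := MvPolynomial.ne_zero_iff.1 hf
    exact ⟨_, Finset.mem_image.2 ⟨d, MvPolynomial.mem_support_iff.2 hd, rfl⟩⟩
  refine ⟨?_, ?_, ?_, ?_⟩
  · rintro (_ | j)
    · exact hne h hh
    · exact hne (g j) (hg j)
  · rintro (_ | j)
    · exact nonneg_expo h
    · exact nonneg_expo (g j)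
  · rintro (_ | j)
    · exact zero_notMem_expo h h0
    · exact zero_notMem_expo (g j) (hg0 j)
  · intro t ht j
    obtain ⟨d, hd, rfl⟩ := Finset.mem_image.1 ht
    obtain ⟨e, he, hed⟩ := hC d hd j
    refine ⟨_, Finset.mem_image.2 ⟨e, he, rfl⟩, ?_⟩
    intro i hi
    have hi' : ((d i : ℕ) : ℤ) = 0 := hi
    have h1 : d i = 0 := by exact_mod_cast hi'
    have h2 : e i = 0 := by
      by_contra hne
      exact (Finsupp.mem_support_iff.1 (hed (Finsupp.mem_support_iff.2 hne))) h1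
    exact_mod_cast h2

theorem finalC (hEx : ExistsTriC) (hR : StarColour) (hDF : DualFanC) (hLC : LimitC)
    (hE : ZEvalC) (hP : PoleLemmaC) (hM : ClassMain2) (hCy : CycloLemma)
    (hCS : CellSumC) (hL : LatCNe) (hZE : CellsEmptyC)
    (h : MvPolynomial (Fin N) ℂ) (g : Fin k → MvPolynomial (Fin N) ℂ)
    (hh : h ≠ 0) (h0 : h.coeff 0 = 0) (hg : ∀ j, g j ≠ 0) (hg0 : ∀ j, (g j).coeff 0 = 0)
    (hC : ∀ d ∈ h.support, ∀ j, ∃ e ∈ (g j).support, e.support ⊆ d.support)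
    (hD : ∀ a : Fin N → ℤ, (∀ i, 0 ≤ a i) → a ≠ 0 → ∑ j, NA (expo (g j)) a < ∑ i, a i)
    (b : Fin N → ℝ) (hb : ∀ i, 0 < b i) (hlin : LinearIndependent ℚ b) :
    (∃ T : Fan N, ∀ c, Adapted (sys h g c) T) ∧
    ∀ T : Fan N, (∀ c, Adapted (sys h g c) T) →
      ∀ s₀ : ℂ, (ZC (sys h g) T).denom.eval s₀ = 0 →
      (∃ m : ℤ, s₀ = m) ∨
      ZeroOrPole (zetaC (sys h g)) (Complex.exp (2 * Real.pi * Complex.I * s₀)) ∨
      ∃ K : Finset (Fin N), K.Nonempty ∧
        (∀ d : Fin N →₀ ℕ, (∀ i, i ∉ K → d i = 0) → h.coeff d = 0) ∧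
        ZeroOrPole (zetaSC (sys h g) K b) (Complex.exp (2 * Real.pi * Complex.I * s₀)) := by
  have hG := sys_good h g hh h0 hg hg0 hC
  have hPN : PosNu (sys h g) := hD
  refine ⟨hDF N k _ hG, fun T hT s₀ hs₀ => ?_⟩
  obtain ⟨L, b', Z, Φ', Φ, hTri⟩ := hEx N k _ b hG hb hlin
  obtain ⟨q, hq, hZf⟩ := hLC N k _ b L b' Z Φ' Φ hTri hb hPN
  obtain ⟨r₀, E, hZ⟩ := hZf T hT
  have hpole := hP (ZC (sys h g) T)
    (Φ.mx.image (fun F => psi (Hset (sys h g) Z) F (fun _ => (1 : ℝ)))) q r₀ E (by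
    intro s hs hsE _
    have h1 := hE N k (sys h g) T hG hPN s hs
    refine ⟨h1.1, ?_⟩
    rw [h1.2, hZ s hs hsE]) s₀ hs₀
  rcases hpole with h1 | ⟨a, _, hqa, hsa⟩
  · exact Or.inl ⟨-1, by simp [h1]⟩
  · have hex : ∃ σ c, Φ.IsClass σ c ∧ ∑ t ∈ σ \ Hset (sys h g) Z, c t = a ∧ ¬ Φ.Kill Z σ := by
      by_contra hcon
      push Not at hcon
      exact hqa (hq a (fun σ c h1 h2 => hcon σ c h1 h2))
    obtain ⟨σ, c, hcl, hsum, hk⟩ := hex
    obtain ⟨r, hr, hmain⟩ := hM (N + k) Φ hTri.coh (Hset (sys h g) Z) Z σ c hcl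
    have har : a = (r : ℝ) := by rw [← hsum, hr]
    have hs' : s₀ = -(r : ℂ) := by rw [hsa, har]; push_cast; rfl
    by_cases hden : r.den = 1
    · left
      refine ⟨-r.num, ?_⟩
      rw [hs']
      have : r = (r.num : ℚ) := by
        conv_lhs => rw [← Rat.num_div_den r]
        rw [hden]; simp
      rw [this]
      push_cast
      simp
    · right
      have hprim := primitive_exp r
      rw [← hs'] at hprim
      have hexK : ∃ K : Finset (Fin N), ESC (sys h g) K b r.den ≠ 0 := by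
        by_contra hcon
        push Not at hcon
        apply hk
        apply hmain hden
        exact mult_zeroC hCS hR hTri r.den Finset.inter_subset_right hcon
      obtain ⟨K, hK⟩ := hexK
      have hzp := zop_of_ESC hCy hL r.den_nz hprim hK
      by_cases hKe : K = ∅
      · subst hKe
        left
        rwa [(hZE N k _ b hG hb).2] at hzp
      · right
        refine ⟨K, Finset.nonempty_iff_ne_empty.2 hKe, ?_, hzp⟩
        intro d hd
        by_contra hdc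
        obtain ⟨φ, hφ, _⟩ := Finset.exists_ne_zero_of_sum_ne_zero hK
        refine no_supp_of_cellC (v := fun l => ((d l : ℕ) : ℤ)) (Finset.mem_filter.1 hφ).1 ?_ ?_
        · exact Finset.mem_image.2 ⟨d, MvPolynomial.mem_support_iff.2 hdc, rfl⟩
        · intro i hi
          simp [hd i hi]

end Mono.CI
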