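import Pool.Agent.Helper4.CI.Goals
import Pool.Agent.Helper35.Mono.D2
import Pool.Agent.Helper18.Mono.E3

/-! # L2: the arithmetic of a class, with two sets `H`, `Z` -/

namespace Mono.CI

open Finset Mono

variable {n : ℕ}

open D2 in
/-- D2 without hypotheses on `Z`, `S`. -/
theorem multFormula' (h : BoxCount) (hS : SpanT) (n : ℕ) (Φ : Fan n)
    (Z S : Finset (Fin n → ℤ)) (q : ℚ) (hq : q.den ≠ 1) :
    Φ.mult Z S q.den = ∑ G ∈ Φ.faces, (lstar Z (q : ℝ) G : ℤ) * Φ.ell (G ∪ S) := by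
  classical
  -- the right hand side
  have e1 : ∀ G ∈ Φ.faces, (lstar Z (q : ℝ) G : ℤ) * Φ.ell (G ∪ S) =
      ∑ T : Finset (Fin n), ∑ τ ∈ Φ.mxT T, if S ⊆ τ ∧ G ⊆ τ then
        (-1) ^ (n - τ.card) * (lstar Z (q : ℝ) G : ℤ) else 0 := by
    intro G _
    unfold Fan.ell
    rw [Finset.mul_sum, Finset.sum_filter]
    apply Finset.sum_congr rfl
    intro T _
    have e2 : ∀ τ ∈ Φ.mxT T, τ.card = T.card := fun τ hτ => (mem_filter.1 hτ).2.1
    have e3 : (∑ τ ∈ Φ.mxT T, if S ⊆ τ ∧ G ⊆ τ then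
        (-1) ^ (n - τ.card) * (lstar Z (q : ℝ) G : ℤ) else 0) =
        (lstar Z (q : ℝ) G : ℤ) * ((-1) ^ (n - T.card) *
          (((Φ.mxT T).filter (fun τ => G ∪ S ⊆ τ)).card : ℤ)) := by
      rw [Finset.card_filter, Nat.cast_sum, Finset.mul_sum, Finset.mul_sum]
      apply Finset.sum_congr rfl
      intro τ hτ
      rw [e2 τ hτ]
      by_cases hc : S ⊆ τ ∧ G ⊆ τ
      · rw [if_pos hc, if_pos (Finset.union_subset hc.2 hc.1)]
        push_cast
        ring
      · rw [if_neg hc, if_neg]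
        · simp
        · intro hu
          exact hc ⟨Finset.subset_union_right.trans hu, Finset.subset_union_left.trans hu⟩
    rw [e3]
    by_cases hT : cs (G ∪ S) ⊆ T
    · rw [if_pos hT]
    · rw [if_neg hT]
      have : (Φ.mxT T).filter (fun τ => G ∪ S ⊆ τ) = ∅ := by
        rw [Finset.filter_eq_empty_iff]
        intro τ hτ hsub
        apply hT
        intro i hi
        obtain ⟨u, hu, hui⟩ := (mem_filter.1 hi).2
        by_contra hiT
        exact hui ((mem_filter.1 hτ).2.2 u (hsub hu) i hiT)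
      rw [this]
      simp
  rw [Finset.sum_congr rfl e1, Finset.sum_comm]
  -- the inner sum
  have e4 : ∀ T : Finset (Fin n), (∑ G ∈ Φ.faces, ∑ τ ∈ Φ.mxT T, if S ⊆ τ ∧ G ⊆ τ then
        (-1) ^ (n - τ.card) * (lstar Z (q : ℝ) G : ℤ) else 0) =
      ∑ τ ∈ Φ.mxT T, if S ⊆ τ ∧ ¬ τ ⊆ Z ∧ q.den ∣ latDistZ Z τ then
        (-1) ^ (n - τ.card) * (volZ Z τ : ℤ) else 0 := by
    intro T
    rw [Finset.sum_comm]
    apply Finset.sum_congr rfl
    intro τ hτ
    have hτf : τ ∈ Φ.faces := (mem_filter.1 hτ).1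
    by_cases hSτ : S ⊆ τ
    · have e5 : (∑ G ∈ Φ.faces, if S ⊆ τ ∧ G ⊆ τ then
          (-1) ^ (n - τ.card) * (lstar Z (q : ℝ) G : ℤ) else 0) =
          (-1) ^ (n - τ.card) * ((∑ G ∈ τ.powerset, lstar Z (q : ℝ) G : ℕ) : ℤ) := by
        rw [Nat.cast_sum, Finset.mul_sum, ← Finset.sum_filter]
        apply Finset.sum_congr _ (fun _ _ => rfl)
        ext G
        simp only [mem_filter, mem_powerset]
        constructor
        · exact fun h => h.2.2
        · intro hG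
          refine ⟨?_, hSτ, hG⟩
          rw [Φ.mem_faces]
          exact (Φ.mem_faces.1 hτf).subset Φ hG
      rw [e5, box_sum h Φ hτf hq]
      by_cases hc : ¬ τ ⊆ Z ∧ q.den ∣ latDistZ Z τ
      · rw [if_pos hc, if_pos ⟨hSτ, hc⟩]
      · rw [if_neg hc, if_neg (fun h => hc h.2)]
        simp
    · rw [if_neg (fun h => hSτ h.1)]
      apply Finset.sum_eq_zero
      intro G _
      rw [if_neg (fun h => hSτ h.1)]
  rw [Finset.sum_congr rfl (fun T _ => e4 T)]
  -- regroup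
  rw [Finset.sum_sigma']
  unfold Fan.mult
  rw [← Finset.sum_filter]
  symm
  apply Finset.sum_bij (fun p _ => p.2)
  · rintro ⟨T, τ⟩ hp
    simp only [mem_filter, mem_sigma, mem_univ, true_and] at hp
    obtain ⟨h1, h2, h3, h4⟩ := hp
    have hcs := cs_eq_of_mxT hS Φ h1
    refine mem_filter.2 ⟨(mem_filter.1 h1).1, h2, h3, ?_, h4⟩
    rw [hcs]
    exact (mem_filter.1 h1).2.1
  · rintro ⟨T, τ⟩ hp ⟨T', τ'⟩ hp' heq
    simp only at heq
    subst heq
    simp only [mem_filter, mem_sigma, mem_univ, true_and] at hp hp'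
    have h1 := cs_eq_of_mxT hS Φ hp.1
    have h2 := cs_eq_of_mxT hS Φ hp'.1
    rw [← h1, ← h2]
  · intro τ hτ
    obtain ⟨h1, h2, h3, h4, h5⟩ := mem_filter.1 hτ
    refine ⟨⟨cs τ, τ⟩, ?_, rfl⟩
    simp only [mem_filter, mem_sigma, mem_univ, true_and]
    exact ⟨mem_mxT_cs Φ h1 h4, h2, h3, h5⟩
  · rintro ⟨T, τ⟩ _
    rfl


theorem classMain2 (hA : AlgMain) (hbox : BoxCount) (hS : SpanT) (hC : ClassKill) :
    ClassMain2 := by
  classical
  intro n Φ hcoh H Z σ c hcl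
  have hMF0 : ∀ q : ℚ, q.den ≠ 1 → Φ.mult H (σ ∩ Z) q.den =
      ∑ G ∈ Φ.faces, (lstar H (q : ℝ) G : ℤ) * Φ.ell (G ∪ (σ ∩ Z)) := by
    intro q hq
    exact multFormula' hbox hS n Φ H (σ ∩ Z) q hq
  obtain ⟨d, hd⟩ := class_rational Φ σ c hcl
  refine ⟨∑ t ∈ σ \ H, d t, ?_, ?_⟩
  · push_cast
    exact Finset.sum_congr rfl fun t ht => hd t (Finset.mem_sdiff.1 ht).1
  set q : ℚ := ∑ t ∈ σ \ H, d t with hq
  have hqc : ∑ t ∈ σ \ H, c t = (q : ℝ) := by
    rw [hq]; push_cast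
    exact Finset.sum_congr rfl fun t ht => hd t (Finset.mem_sdiff.1 ht).1
  intro hq1 hmult
  have hMF := hMF0 q hq1
  rw [hmult] at hMF
  have hterms := (Finset.sum_eq_zero_iff_of_nonneg (fun G _ =>
    mul_nonneg (Int.natCast_nonneg _) (ell_nonneg hA Φ hcoh (G ∪ (σ ∩ Z))))).1 hMF.symm
  set G : Finset (Fin n → ℤ) := σ.filter (fun t => ∀ z : ℤ, c t ≠ z) with hG
  have hGσ : G ⊆ σ := Finset.filter_subset _ _
  have hGface : Φ.IsFace G := hcl.1.subset Φ hGσ
  have hterm := hterms G ((Φ.mem_faces).2 hGface)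
  have hcore : G ∪ (σ ∩ Z) = ncore Z σ c := by
    ext t
    simp only [hG, ncore, Finset.mem_union, Finset.mem_filter, Finset.mem_inter]
    tauto
  have hcoreface : Φ.IsFace (ncore Z σ c) := hcl.1.subset Φ (by
    unfold ncore; exact Finset.filter_subset _ _)
  have hl : (lstar H (q : ℝ) G : ℤ) ≠ 0 := by
    have hfin := lstar_finite H (q : ℝ) G
    have hne : Nonempty {b : Fin n → ℤ // ∃ c : (Fin n → ℤ) → ℝ, (∀ u ∈ G, 0 < c u ∧ c u < 1) ∧
        toR b = ∑ u ∈ G, c u • toR u ∧ ∃ z : ℤ, ∑ u ∈ G \ H, c u - (q : ℝ) = z} := by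
      have hfr0 : ∀ t ∈ σ, t ∉ G → Int.fract (c t) = 0 := by
        intro t ht htG
        have : ¬ ∀ z : ℤ, c t ≠ z := fun h => htG (by rw [hG]; exact Finset.mem_filter.2 ⟨ht, h⟩)
        push Not at this
        obtain ⟨z, hz⟩ := this
        rw [hz]; exact Int.fract_intCast z
      refine ⟨⟨fun i => 1 - ∑ t ∈ σ, ⌊c t⌋ * t i, fun u => Int.fract (c u), ?_, ?_, ?_⟩⟩
      · intro u hu
        have hu2 : ∀ z : ℤ, c u ≠ z := (Finset.mem_filter.1 hu).2
        refine ⟨?_, Int.fract_lt_one _⟩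
        rcases (Int.fract_nonneg (c u)).lt_or_eq with h | h
        · exact h
        · exfalso
          have h5 : c u = ⌊c u⌋ := by
            have := Int.floor_add_fract (c u)
            linarith
          exact hu2 _ h5
      · rw [Finset.sum_subset hGσ (f := fun u => Int.fract (c u) • toR u) (by
          intro u hu huG
          simp [hfr0 u hu huG])]
        funext i
        have h1 := congrFun hcl.2.2 i
        simp only [toR_apply, Finset.sum_apply, Pi.smul_apply, smul_eq_mul] at h1 ⊢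
        push_cast
        rw [h1, ← Finset.sum_sub_distrib]
        refine Finset.sum_congr rfl fun t _ => ?_
        have := Int.floor_add_fract (c t)
        have h6 : Int.fract (c t) = c t - ⌊c t⌋ := rfl
        rw [h6]; ring
      · refine ⟨- ∑ t ∈ σ \ H, ⌊c t⌋, ?_⟩
        have h7 : ∑ u ∈ G \ H, Int.fract (c u) = ∑ u ∈ σ \ H, Int.fract (c u) := by
          refine Finset.sum_subset (Finset.sdiff_subset_sdiff hGσ (Finset.Subset.refl _)) ?_
          intro u hu huG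
          refine hfr0 u (Finset.mem_sdiff.1 hu).1 ?_
          intro h8
          exact huG (Finset.mem_sdiff.2 ⟨h8, (Finset.mem_sdiff.1 hu).2⟩)
        rw [h7, ← hqc, ← Finset.sum_sub_distrib]
        push_cast
        rw [← Finset.sum_neg_distrib]
        refine Finset.sum_congr rfl fun t _ => ?_
        have h6 : Int.fract (c t) = c t - ⌊c t⌋ := rfl
        rw [h6]; ring
    have : Nat.card {b : Fin n → ℤ // ∃ c : (Fin n → ℤ) → ℝ, (∀ u ∈ G, 0 < c u ∧ c u < 1) ∧
        toR b = ∑ u ∈ G, c u • toR u ∧ ∃ z : ℤ, ∑ u ∈ G \ H, c u - (q : ℝ) = z} ≠ 0 :=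
      Nat.card_ne_zero.2 ⟨hne, hfin⟩
    unfold lstar
    exact_mod_cast this
  have hell : Φ.ell (ncore Z σ c) = 0 := by
    rw [← hcore]
    rcases mul_eq_zero.1 hterm with h | h
    · exact absurd h hl
    · exact h
  exact hC n Φ Z σ c hcl ((hA n Φ hcoh _ hcoreface).2 hell)

end Mono.CI
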