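import Pool.Agent.Helper4.CI.Goals
import Pool.Agent.Helper57.Mono.NvolSum

/-! # L6: fans adapted to all the sets of a system -/

namespace Mono.CI

open Finset Mono

theorem dualFanC (hDF : DualFan) : DualFanC := by
  classical
  intro N k A hG
  -- the Minkowski sum
  let S : Finset (Fin N → ℤ) := (Fintype.piFinset A).image (fun v => ∑ c, v c)
  have hSne : S.Nonempty := by
    choose v hv using hG.ne
    exact ⟨_, mem_image.2 ⟨v, Fintype.mem_piFinset.2 hv, rfl⟩⟩
  have hSnn : ∀ v ∈ S, ∀ i, 0 ≤ v i := by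
    intro v hv i
    obtain ⟨w, hw, rfl⟩ := mem_image.1 hv
    rw [Finset.sum_apply]
    exact Finset.sum_nonneg fun c _ => hG.nonneg c (w c) (Fintype.mem_piFinset.1 hw c) i
  obtain ⟨T, hT⟩ := hDF N S hSne hSnn
  refine ⟨T, fun c δ hδ => ?_⟩
  obtain ⟨v, hv, hav⟩ := hT δ hδ
  obtain ⟨w, hw, rfl⟩ := mem_image.1 hv
  have hw' := Fintype.mem_piFinset.1 hw
  refine ⟨w c, hw' c, fun a ha => ?_⟩
  -- a point of the face of `A c`
  obtain ⟨⟨u, hu, hau⟩, hmin⟩ := V2.NA_spec (hG.ne c) a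
  refine le_antisymm ?_ (hmin _ (hw' c))
  have h1 : (Function.update w c u) ∈ Fintype.piFinset A := by
    rw [Fintype.mem_piFinset]
    intro c'
    by_cases h : c' = c
    · subst h; simpa using hu
    · simpa [Function.update_of_ne h] using hw' c'
  have h2 := (V2.NA_spec hSne a).2 _ (mem_image.2 ⟨_, h1, rfl⟩)
  rw [← hav a ha] at h2
  have e1 : ∀ w : Option (Fin k) → Fin N → ℤ, a ⬝ᵥ ∑ c, w c = ∑ c, a ⬝ᵥ w c := by
    intro w
    rw [dotProduct_sum]
  rw [e1, e1, Finset.sum_eq_add_sum_sdiff_singleton_of_mem (mem_univ c),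
    Finset.sum_eq_add_sum_sdiff_singleton_of_mem (mem_univ c)] at h2
  have h3 : ∑ x ∈ univ \ {c}, a ⬝ᵥ Function.update w c u x = ∑ x ∈ univ \ {c}, a ⬝ᵥ w x := by
    refine Finset.sum_congr rfl fun x hx => ?_
    rw [Function.update_of_ne (by simpa using hx)]
  rw [h3, Function.update_self, hau] at h2
  linarith

end Mono.CI
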