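import Pool.Agent.Helper4.CI.Base
import Pool.Agent.Helper20.Mono.Final
import Pool.Agent.Helper57.Mono.NvolSum

/-! # Smooth complete intersections: condition (D) -/

namespace Mono.CI

open Finset Mono

variable {N k : ℕ}

/-- Layers of a nonnegative integer. -/
theorem layers {x : ℤ} (hx : 0 ≤ x) {T : ℕ} (hT : x ≤ T) :
    x = ∑ t ∈ Finset.Icc 1 T, (if (t : ℤ) ≤ x then 1 else 0 : ℤ) := by
  rw [← Finset.sum_filter, Finset.sum_const, nsmul_eq_mul, mul_one]
  have : (Finset.Icc 1 T).filter (fun t : ℕ => (t : ℤ) ≤ x) = Finset.Icc 1 x.toNat := by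
    ext t
    simp only [mem_filter, mem_Icc]
    omega
  rw [this, Nat.card_Icc]
  omega

/-- Linear independence bounds the number of rows supported on a set of columns. -/
theorem card_rows_le {C : Fin k → Fin N → ℂ} (hC : LinearIndependent ℂ C) (J : Finset (Fin k))
    (I : Finset (Fin N)) (h : ∀ j ∈ J, ∀ i, i ∉ I → C j i = 0) :
    LinearIndependent ℂ (fun (j : J) (i : I) => C j.1 i.1) ∧ J.card ≤ I.card := by
  classical
  have hli : LinearIndependent ℂ (fun (j : J) (i : I) => C j.1 i.1) := by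
    rw [Fintype.linearIndependent_iff]
    intro g hg j
    have h1 := (Fintype.linearIndependent_iff.1 (hC.comp (fun j : J => j.1)
      Subtype.val_injective)) g (by
        funext i
        by_cases hi : i ∈ I
        · have := congrFun hg ⟨i, hi⟩
          simpa [Finset.sum_apply] using this
        · rw [Finset.sum_apply]
          refine Finset.sum_eq_zero fun j _ => ?_
          simp [h j.1 j.2 i hi]) j
    exact h1
  refine ⟨hli, ?_⟩
  have := hli.fintype_card_le_finrank
  simpa using this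

theorem smoothD (g : Fin k → MvPolynomial (Fin N) ℂ)
    (hlin : LinearIndependent ℂ (fun (j : Fin k) (i : Fin N) =>
      (g j).coeff (Finsupp.single i 1)))
    (hV : ∀ i, (MvPowerSeries.X i : MvPowerSeries (Fin N) ℂ) ∉
      Ideal.span (Set.range fun j => ((g j : MvPolynomial (Fin N) ℂ) :
        MvPowerSeries (Fin N) ℂ))) :
    ∀ a : Fin N → ℤ, (∀ i, 0 ≤ a i) → a ≠ 0 → ∑ j, NA (expo (g j)) a < ∑ i, a i := by
  classical
  intro a ha ha0
  set C : Fin k → Fin N → ℂ := fun j i => (g j).coeff (Finsupp.single i 1) with hCdef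
  have hgne : ∀ j, (expo (g j)).Nonempty := by
    intro j
    have h1 : g j ≠ 0 := by
      intro h0
      have h2 : C j = 0 := by
        funext i
        simp [hCdef, h0]
      exact hlin.ne_zero j h2
    obtain ⟨d, hd⟩ := MvPolynomial.ne_zero_iff.1 h1
    exact ⟨_, Finset.mem_image.2 ⟨d, MvPolynomial.mem_support_iff.2 hd, rfl⟩⟩
  have hspec := fun j => V2.NA_spec (hgne j) a
  have hNn : ∀ j, 0 ≤ NA (expo (g j)) a := by
    intro j
    obtain ⟨v, hv, hve⟩ := (hspec j).1
    rw [← hve]
    exact Finset.sum_nonneg fun i _ => mul_nonneg (ha i) (Fin20.nonneg_expo (g j) v hv i)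
  -- linear terms
  have hlt : ∀ j i, C j i ≠ 0 → NA (expo (g j)) a ≤ a i := by
    intro j i hji
    have hm : (fun l => (((Finsupp.single i 1 : Fin N →₀ ℕ) l : ℕ) : ℤ)) ∈ expo (g j) :=
      Finset.mem_image.2 ⟨_, MvPolynomial.mem_support_iff.2 hji, rfl⟩
    have h1 := (hspec j).2 _ hm
    refine h1.trans (le_of_eq ?_)
    unfold dotProduct
    rw [Finset.sum_eq_single i]
    · simp
    · intro l _ hl
      simp [Ne.symm hl]
    · intro h; exact absurd (mem_univ i) h
  let Jt : ℕ → Finset (Fin k) := fun t => univ.filter (fun j => (t : ℤ) ≤ NA (expo (g j)) a)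
  let It : ℕ → Finset (Fin N) := fun t => univ.filter (fun i => (t : ℤ) ≤ a i)
  have hrow : ∀ t, ∀ j ∈ Jt t, ∀ i, i ∉ It t → C j i = 0 := by
    intro t j hj i hi
    by_contra hne
    have h1 := hlt j i hne
    have h2 : (t : ℤ) ≤ NA (expo (g j)) a := (mem_filter.1 hj).2
    exact hi (mem_filter.2 ⟨mem_univ _, h2.trans h1⟩)
  have hcard : ∀ t, (Jt t).card ≤ (It t).card := fun t =>
    (card_rows_le hlin (Jt t) (It t) (hrow t)).2
  -- a common bound
  obtain ⟨T, hTN, hTa⟩ : ∃ T : ℕ, (∀ j, NA (expo (g j)) a ≤ T) ∧ ∀ i, a i ≤ T := by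
    refine ⟨(∑ j, (NA (expo (g j)) a).toNat) + ∑ i, (a i).toNat, ?_, ?_⟩
    · intro j
      have h1 : (NA (expo (g j)) a).toNat ≤ ∑ j, (NA (expo (g j)) a).toNat :=
        Finset.single_le_sum (f := fun j => (NA (expo (g j)) a).toNat)
          (fun _ _ => Nat.zero_le _) (mem_univ j)
      have := Int.self_le_toNat (NA (expo (g j)) a)
      push_cast
      have h2 : ((NA (expo (g j)) a).toNat : ℤ) ≤ ((∑ j, (NA (expo (g j)) a).toNat : ℕ) : ℤ) := by
        exact_mod_cast h1
      have h3 : (0 : ℤ) ≤ ((∑ i, (a i).toNat : ℕ) : ℤ) := Int.natCast_nonneg _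
      push_cast at h2 h3
      linarith
    · intro i
      have h1 : (a i).toNat ≤ ∑ i, (a i).toNat :=
        Finset.single_le_sum (f := fun i => (a i).toNat) (fun _ _ => Nat.zero_le _) (mem_univ i)
      have := Int.self_le_toNat (a i)
      have h2 : ((a i).toNat : ℤ) ≤ ((∑ i, (a i).toNat : ℕ) : ℤ) := by exact_mod_cast h1
      have h3 : (0 : ℤ) ≤ ((∑ j, (NA (expo (g j)) a).toNat : ℕ) : ℤ) := Int.natCast_nonneg _
      push_cast at h2 h3 ⊢
      linarith
  have hsN : ∑ j, NA (expo (g j)) a = ∑ t ∈ Finset.Icc 1 T, ((Jt t).card : ℤ) := by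
    rw [Finset.sum_congr rfl fun j _ => layers (hNn j) (hTN j), Finset.sum_comm]
    refine Finset.sum_congr rfl fun t _ => ?_
    simp only [Jt]
    rw [Finset.card_filter]
    push_cast
    rfl
  have hsa : ∑ i, a i = ∑ t ∈ Finset.Icc 1 T, ((It t).card : ℤ) := by
    rw [Finset.sum_congr rfl fun i _ => layers (ha i) (hTa i), Finset.sum_comm]
    refine Finset.sum_congr rfl fun t _ => ?_
    simp only [It]
    rw [Finset.card_filter]
    push_cast
    rfl
  by_contra hcon
  push Not at hcon
  obtain ⟨i₀, hi₀⟩ : ∃ i, a i ≠ 0 := by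
    by_contra h
    push Not at h
    exact ha0 (funext h)
  have hi₀' : 1 ≤ a i₀ := by
    have := ha i₀
    omega
  have hT1 : 1 ∈ Finset.Icc 1 T := by
    rw [mem_Icc]
    have := hTa i₀
    omega
  have hcard1 : (Jt 1).card = (It 1).card := by
    by_contra hne
    have hlt1 : (Jt 1).card < (It 1).card := lt_of_le_of_ne (hcard 1) hne
    have : ∑ t ∈ Finset.Icc 1 T, ((Jt t).card : ℤ) < ∑ t ∈ Finset.Icc 1 T, ((It t).card : ℤ) := by
      refine Finset.sum_lt_sum (fun t _ => by exact_mod_cast hcard t) ⟨1, hT1, ?_⟩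
      exact_mod_cast hlt1
    rw [hsN, hsa] at hcon
    exact absurd this (not_lt.2 hcon)
  set J := Jt 1 with hJ
  set I := It 1 with hI
  have hi₀I : i₀ ∈ I := mem_filter.2 ⟨mem_univ _, by simpa using hi₀'⟩
  -- an equivalence of the index sets
  let e : I ≃ J := Fintype.equivOfCardEq (by simpa using hcard1.symm)
  -- decomposition
  have hdec : ∀ j : J, ∃ c : I → MvPolynomial (Fin N) ℂ,
      ∑ i : I, c i * MvPolynomial.X i.1 = g j.1 := by
    intro j
    have hmem : g j.1 ∈ Ideal.span (MvPolynomial.X '' (I : Set (Fin N))) := by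
      rw [MvPolynomial.mem_ideal_span_X_image]
      intro m hm
      have h1 : (fun l => ((m l : ℕ) : ℤ)) ∈ expo (g j.1) := Finset.mem_image.2 ⟨m, hm, rfl⟩
      have h2 := (hspec j.1).2 _ h1
      have h3 : ((1 : ℕ) : ℤ) ≤ NA (expo (g j.1)) a := (mem_filter.1 j.2).2
      by_contra hno
      push Not at hno
      have h4 : a ⬝ᵥ (fun l => ((m l : ℕ) : ℤ)) = 0 := by
        refine Finset.sum_eq_zero fun i _ => ?_
        by_cases hi : i ∈ I
        · have := hno i (by exact_mod_cast hi)
          simp [this]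
        · have h5 : ¬ ((1 : ℕ) : ℤ) ≤ a i := fun h => hi (mem_filter.2 ⟨mem_univ _, h⟩)
          have h6 := ha i
          have h7 : a i = 0 := by
            push_cast at h5
            omega
          simp [h7]
      rw [h4] at h2
      push_cast at h3
      omega
    have hset : MvPolynomial.X '' (I : Set (Fin N)) =
        Set.range (fun i : I => (MvPolynomial.X i.1 : MvPolynomial (Fin N) ℂ)) := by
      ext x
      constructor
      · rintro ⟨i, hi, rfl⟩
        exact ⟨⟨i, hi⟩, rfl⟩
      · rintro ⟨i, rfl⟩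
        exact ⟨i.1, i.2, rfl⟩
    rw [hset, Ideal.mem_span_range_iff_exists_fun] at hmem
    exact hmem
  choose c hc using hdec
  -- the constant terms
  have hconst : ∀ (j : J) (i : I), MvPolynomial.constantCoeff (c j i) = C j.1 i.1 := by
    intro j i
    have h1 : (g j.1).coeff (Finsupp.single i.1 1) =
        ∑ i' : I, (c j i' * MvPolynomial.X i'.1).coeff (Finsupp.single i.1 1) := by
      rw [← hc j, MvPolynomial.coeff_sum]
    simp only [hCdef]
    rw [h1, Finset.sum_eq_single i]
    · rw [MvPolynomial.coeff_mul_X']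
      simp [MvPolynomial.constantCoeff_eq]
    · intro i' _ hi'
      rw [MvPolynomial.coeff_mul_X', if_neg]
      intro h
      apply hi'
      have h2 : i'.1 = i.1 := by
        rw [Finsupp.mem_support_iff, Finsupp.single_apply] at h
        by_contra hne
        rw [if_neg (Ne.symm hne)] at h
        exact h rfl
      exact Subtype.ext h2
    · intro h; exact absurd (mem_univ i) h
  -- the matrices
  let B : Matrix I I ℂ := Matrix.of fun i' i => C (e i').1 i.1
  have hB : IsUnit B.det := by
    rw [← Matrix.isUnit_iff_isUnit_det, ← Matrix.linearIndependent_rows_iff_isUnit]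
    have h1 := (card_rows_le hlin J I (hrow 1)).1
    have h2 := h1.comp (fun i' : I => e i') e.injective
    exact h2
  let D : Matrix I I (MvPowerSeries (Fin N) ℂ) :=
    Matrix.of fun i' i => ((c (e i') i : MvPolynomial (Fin N) ℂ) : MvPowerSeries (Fin N) ℂ)
  have hD : IsUnit D.det := by
    rw [MvPowerSeries.isUnit_iff_constantCoeff, RingHom.map_det]
    have : (MvPowerSeries.constantCoeff (σ := Fin N) (R := ℂ)).mapMatrix D = B := by
      ext i' i
      simp only [RingHom.mapMatrix_apply, Matrix.map_apply, D, B, Matrix.of_apply]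
      rw [← hconst, MvPolynomial.constantCoeff_eq,
        ← MvPowerSeries.coeff_zero_eq_constantCoeff_apply, MvPolynomial.coeff_coe]
    rw [this]
    exact hB
  have hvec : D.mulVec (fun i : I => (MvPowerSeries.X i.1 : MvPowerSeries (Fin N) ℂ)) =
      fun i' : I => ((g (e i').1 : MvPolynomial (Fin N) ℂ) : MvPowerSeries (Fin N) ℂ) := by
    funext i'
    simp only [Matrix.mulVec, dotProduct, D, Matrix.of_apply]
    rw [← hc (e i')]
    rw [← MvPolynomial.coeToMvPowerSeries.ringHom_apply, map_sum]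
    refine Finset.sum_congr rfl fun i _ => ?_
    rw [map_mul]
    simp
  have hinv : (fun i : I => (MvPowerSeries.X i.1 : MvPowerSeries (Fin N) ℂ)) =
      D⁻¹.mulVec (fun i' : I => ((g (e i').1 : MvPolynomial (Fin N) ℂ) :
        MvPowerSeries (Fin N) ℂ)) := by
    rw [← hvec, Matrix.mulVec_mulVec, Matrix.nonsing_inv_mul _ hD, Matrix.one_mulVec]
  refine hV i₀ ?_
  have h1 := congrFun hinv ⟨i₀, hi₀I⟩
  simp only at h1
  rw [h1]
  simp only [Matrix.mulVec, dotProduct]
  refine Ideal.sum_mem _ fun i' _ => Ideal.mul_mem_left _ _ (Ideal.subset_span ?_)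
  exact ⟨(e i').1, rfl⟩

end Mono.CI
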