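import Pool.Agent.Helper4.CI.Base
import Pool.Agent.Helper20.Mono.GoalsS

/-!
# Functions on nondegenerate complete intersections: exact statements of the packets

Paper proof: `/team-store/mono_ci_proof.md`.  `M = N + k`; points of `ℤ^M` have `N` coordinates
`x_i` (indices `Fin.castAdd k i`) and `k` coordinates `z_j` (indices `Fin.natAdd N j`).
-/

namespace Mono.CI

open Finset Filter Topology Pointwise Mono

variable {N k n : ℕ}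

/-! ### Data -/

/-- The hypotheses on a system. -/
structure Good (A : Option (Fin k) → Finset (Fin N → ℤ)) : Prop where
  ne : ∀ c, (A c).Nonempty
  nonneg : ∀ c, ∀ v ∈ A c, ∀ i, 0 ≤ v i
  zero : ∀ c, (0 : Fin N → ℤ) ∉ A c
  cond : ∀ t ∈ A none, ∀ j, ∃ v ∈ A (some j), ∀ i, t i = 0 → v i = 0

/-- The condition (D). -/
def PosNu (A : Option (Fin k) → Finset (Fin N → ℤ)) : Prop :=
  ∀ a : Fin N → ℤ, (∀ i, 0 ≤ a i) → a ≠ 0 → ∑ j, NA (A (some j)) a < ∑ i, a i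

/-- The Cayley configuration with the points of colour `none` multiplied by `L`. -/
def scay (φ : Option (Fin k) → Finset (Fin N → ℤ)) (L : ℕ) : Finset (Fin (N + k) → ℤ) :=
  (φ none).image (fun v => lift none ((L : ℤ) • v)) ∪
    univ.biUnion fun j => (φ (some j)).image (lift (some j))

/-- The generators which are not of colour `none`. -/
def Hset (A : Option (Fin k) → Finset (Fin N → ℤ)) (Z : Finset (Fin (N + k) → ℤ)) :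
    Finset (Fin (N + k) → ℤ) :=
  Z ∪ univ.biUnion fun j => (A (some j)).image (lift (some j))

/-- Scaling of the generators outside `H`. -/
def up (L : ℕ) (H : Finset (Fin n → ℤ)) (u : Fin n → ℤ) : Fin n → ℤ :=
  if u ∈ H then u else (L : ℤ) • u

/-- The colours of the elements of `ρ`. -/
def cols (ρ : Finset (Fin (N + k) → ℤ)) : Finset (Option (Fin k)) :=
  univ.filter (fun c => ∃ v ∈ ρ, ∀ j, v (Fin.natAdd N j) = ind c j)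

/-- The `x`-part. -/
def base (v : Fin (N + k) → ℤ) : Fin N → ℤ := fun i => v (Fin.castAdd k i)

/-- The collection of the `x`-parts of the elements of `ρ` of each colour. -/
def coll (ρ : Finset (Fin (N + k) → ℤ)) (c : Option (Fin k)) : Finset (Fin N → ℤ) :=
  (ρ.filter (fun v => ∀ j, v (Fin.natAdd N j) = ind c j)).image base

/-- The indices of `K` in `Fin (N + k)`. -/
def Kh (k : ℕ) (K : Finset (Fin N)) : Finset (Fin (N + k)) := K.image (Fin.castAdd k)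

/-- The data of the proof: `Φ'` is the triangulated Newton boundary of the scaled Cayley
configuration `scay A L`, and `Φ` the same fan with the generators of colour `none` divided
by `L`. -/
structure TriC (A : Option (Fin k) → Finset (Fin N → ℤ)) (b : Fin N → ℝ) (L : ℕ)
    (b' : Fin (N + k) → ℝ) (Z : Finset (Fin (N + k) → ℤ)) (Φ' Φ : Fan (N + k)) : Prop where
  good : Good A
  two_le : 2 ≤ L
  lt : ∀ j, ∀ v ∈ A (some j), ∀ i, v i < L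
  pos : ∀ i, 0 < b' i
  ext : ∀ i, b' (Fin.castAdd k i) = b i
  tri : Tri (scay A L) Z Φ'
  bfan : BFan (scay A L) Z b' Φ'
  notZ : ∀ t ∈ A none, lift none t ∉ Z
  coh : Φ.Coherent
  vert : Φ.vert = cay A univ ∪ Z
  mx : Φ.mx = Φ.vert.powerset.filter (fun F => F.image (up L (Hset A Z)) ∈ Φ'.mx)

/-! ### R. The fans -/

/-- R1. -/
def ExistsTriC : Prop := ∀ (N k : ℕ) (A : Option (Fin k) → Finset (Fin N → ℤ)) (b : Fin N → ℝ),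
  Good A → (∀ i, 0 < b i) → LinearIndependent ℚ b →
  ∃ (L : ℕ) (b' : Fin (N + k) → ℝ) (Z : Finset (Fin (N + k) → ℤ)) (Φ' Φ : Fan (N + k)),
    TriC A b L b' Z Φ' Φ

/-- R2: a cone with a generator of colour `none` has no generator `e_{N+j}`. -/
def StarColour : Prop := ∀ (N k : ℕ) (A : Option (Fin k) → Finset (Fin N → ℤ)) (b : Fin N → ℝ)
  (L : ℕ) (b' : Fin (N + k) → ℝ) (Z : Finset (Fin (N + k) → ℤ)) (Φ' Φ : Fan (N + k)),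
  TriC A b L b' Z Φ' Φ → ∀ F ∈ Φ.mx, ∀ t ∈ A none, lift none t ∈ F → ∀ j : Fin k,
    (Pi.single (Fin.natAdd N j) 1 : Fin (N + k) → ℤ) ∉ F

/-- R3: relations between `Φ` and `Φ'`. -/
def ScaleRel : Prop := ∀ (N k : ℕ) (A : Option (Fin k) → Finset (Fin N → ℤ)) (b : Fin N → ℝ)
  (L : ℕ) (b' : Fin (N + k) → ℝ) (Z : Finset (Fin (N + k) → ℤ)) (Φ' Φ : Fan (N + k)),
  TriC A b L b' Z Φ' Φ →
  (∀ u ∈ Φ.vert, ∀ v ∈ Φ.vert, up L (Hset A Z) u = up L (Hset A Z) v → u = v) ∧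
  (Φ.vert.image (up L (Hset A Z)) = Φ'.vert) ∧ (Φ'.vert \ Z = scay A L) ∧
  (∀ u ∈ Φ.vert, up L (Hset A Z) u ∈ Z ↔ u ∈ Z) ∧
  (Disjoint (cay A univ) Z) ∧
  (∀ u ∈ cay A univ, (u ∉ Hset A Z ↔ ∀ j, u (Fin.natAdd N j) = 0)) ∧
  (∀ F ∈ Φ.mx, F.image (up L (Hset A Z)) ∈ Φ'.mx) ∧
  (∀ F' ∈ Φ'.mx, ∃ F ∈ Φ.mx, F.image (up L (Hset A Z)) = F') ∧
  (∀ τ ⊆ Φ.vert, τ ∈ Φ.faces ↔ τ.image (up L (Hset A Z)) ∈ Φ'.faces) ∧
  (∀ F ∈ Φ.mx, ∀ x : Fin (N + k) → ℝ, ∀ u ∈ F, crd F x u =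
    (if u ∈ Hset A Z then 1 else (L : ℝ)) *
      crd (F.image (up L (Hset A Z))) x (up L (Hset A Z) u)) ∧
  (∀ w : Fin (N + k) → ℝ, Φ.Generic w ↔ Φ'.Generic w)

/-- R4: the heights. -/
def PsiRel : Prop := ∀ (N k : ℕ) (A : Option (Fin k) → Finset (Fin N → ℤ)) (b : Fin N → ℝ)
  (L : ℕ) (b' : Fin (N + k) → ℝ) (Z : Finset (Fin (N + k) → ℤ)) (Φ' Φ : Fan (N + k)),
  TriC A b L b' Z Φ' Φ → ∀ F ∈ Φ.mx, (∃ t ∈ A none, lift none t ∈ F) → ∀ w : Fin (N + k) → ℝ,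
  psi Z (F.image (up L (Hset A Z))) w =
    psi (Hset A Z) F w / L + ∑ j, w (Fin.natAdd N j) ∧
  ∀ j, ∑ u ∈ (F \ Z).filter (fun u => ∀ i, u (Fin.natAdd N i) = ind (some j) i), crd F w u =
    w (Fin.natAdd N j)

/-! ### I. Indices and volumes -/

/-- I1: scaling one generator. -/
def IdxSmul : Prop := ∀ (n : ℕ) (B : Set (Fin n → ℤ)) (x : Fin n → ℤ) (L : ℕ), L ≠ 0 →
  toR x ∉ Submodule.span ℝ (toR '' B) → idx (insert ((L : ℤ) • x) B) = L * idx (insert x B)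

/-- I2: scaling the generators of a maximal cone. -/
def IdxScale : Prop := ∀ (N k : ℕ) (A : Option (Fin k) → Finset (Fin N → ℤ)) (b : Fin N → ℝ)
  (L : ℕ) (b' : Fin (N + k) → ℝ) (Z : Finset (Fin (N + k) → ℤ)) (Φ' Φ : Fan (N + k)),
  TriC A b L b' Z Φ' Φ → ∀ F ∈ Φ.mx,
  idx ((F.image (up L (Hset A Z)) : Finset (Fin (N + k) → ℤ)) : Set (Fin (N + k) → ℤ)) =
    L ^ (F \ Hset A Z).card * idx (F : Set (Fin (N + k) → ℤ))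

/-- I3: the volume of a Cayley simplex, in two forms. -/
def VolCay : Prop := ∀ (N k : ℕ) (ρ : Finset (Fin (N + k) → ℤ)),
  (∀ v ∈ ρ, ∃ c u, v = lift c u) →
  idx ({x | ∃ u ∈ ρ, ∃ v ∈ ρ, (∀ j, u (Fin.natAdd N j) = 0) ∧ (∀ j, v (Fin.natAdd N j) = 0) ∧
      x = u - v} ∪ {x | x ∈ ρ ∧ ¬ ∀ j, x (Fin.natAdd N j) = 0}) = vol ρ

/-- I4: the first vertex of a new colour does not change the volume. -/
def VolNewColour : Prop := ∀ (N k : ℕ) (ρ : Finset (Fin (N + k) → ℤ)) (c : Option (Fin k))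
  (u : Fin N → ℤ), (∀ v ∈ ρ, ∃ c u, v = lift c u) → c ∉ cols ρ → vol (insert (lift c u) ρ) = vol ρ

/-- I5: volumes of the scaled simplices. -/
def VolScale : Prop := ∀ (N k : ℕ) (A : Option (Fin k) → Finset (Fin N → ℤ)) (b : Fin N → ℝ)
  (L : ℕ) (b' : Fin (N + k) → ℝ) (Z : Finset (Fin (N + k) → ℤ)) (Φ' Φ : Fan (N + k)),
  TriC A b L b' Z Φ' Φ → ∀ τ ∈ Φ.faces, τ ⊆ cay A univ →
  volZ (Hset A Z) τ = vol τ ∧
  ((τ \ Hset A Z).Nonempty → volZ Z (τ.image (up L (Hset A Z))) =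
    L ^ ((τ \ Hset A Z).card - 1) * volZ (Hset A Z) τ)

/-! ### D. Dimensions -/

/-- D1. -/
def DimCay : Prop := ∀ (N k : ℕ) (φ : Option (Fin k) → Finset (Fin N → ℤ))
  (C : Finset (Option (Fin k))), C.Nonempty → (∀ c, (φ c).Nonempty) →
  dimF (cay φ C) + 1 ≤ dimC φ + C.card

/-- D2. -/
def CardColl : Prop := ∀ (N k : ℕ) (ρ : Finset (Fin (N + k) → ℤ)), Indep ρ →
  (∀ v ∈ ρ, ∃ c u, v = lift c u) → ρ.card ≤ dimC (coll ρ) + (cols ρ).card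

/-! ### V. Volumes of the cells -/

/-- V0: the normalised volume of a polytope decomposed into open simplices. -/
def NvolDecomp : Prop := ∀ (n : ℕ) (Ψ : Finset (Fin n → ℤ)) (R : Finset (Finset (Fin n → ℤ))),
  (∀ r ∈ R, Indep r ∧ r.Nonempty ∧ r ⊆ Ψ) →
  (∀ (x : Fin n → ℝ) (t : ℝ), 0 < t →
    (x ∈ t • convexHull ℝ (toR '' (Ψ : Set (Fin n → ℤ))) ↔
      ∃ r ∈ R, ∃ c : (Fin n → ℤ) → ℝ, (∀ u ∈ r, 0 < c u) ∧ x = ∑ u ∈ r, c u • toR u ∧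
        ∑ u ∈ r, c u = t)) →
  (∀ r ∈ R, ∀ r' ∈ R, ∀ c c' : (Fin n → ℤ) → ℝ, (∀ u ∈ r, 0 < c u) → (∀ u ∈ r', 0 < c' u) →
    ∑ u ∈ r, c u • toR u = ∑ u ∈ r', c' u • toR u → r = r') →
  nvol Ψ = ∑ r ∈ R.filter (fun r => r.card = dimF Ψ + 1), (vol r : ℤ)

/-- V1: the scaled cells. -/
def CellScale : Prop := ∀ (N k : ℕ) (A : Option (Fin k) → Finset (Fin N → ℤ)) (b : Fin N → ℝ)
  (L : ℕ) (b' : Fin (N + k) → ℝ) (Z : Finset (Fin (N + k) → ℤ)) (Φ' Φ : Fan (N + k)),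
  TriC A b L b' Z Φ' Φ → ∀ (K : Finset (Fin N)), ∀ φ ∈ cellsC A K b,
  scay φ L ∈ cellsS (scay A L) (Kh k K) b'

/-- V2: decomposition of the cone over a (projected) Cayley cell into open simplices. -/
def CellDecompC : Prop := ∀ (N k : ℕ) (A : Option (Fin k) → Finset (Fin N → ℤ)) (b : Fin N → ℝ)
  (L : ℕ) (b' : Fin (N + k) → ℝ) (Z : Finset (Fin (N + k) → ℤ)) (Φ' Φ : Fan (N + k)),
  TriC A b L b' Z Φ' Φ → ∀ (K : Finset (Fin N)),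
  (∀ φ ∈ cellsC A K b, ∀ C : Finset (Option (Fin k)), ∀ (x : Fin (N + k) → ℝ) (t : ℝ), 0 < t →
    (x ∈ t • convexHull ℝ (toR '' (projS (Kh k K) (cay φ C) : Set (Fin (N + k) → ℤ))) ↔
      ∃ ρ ∈ Φ.faces, ρ ∩ Z = eK (Kh k K) ∧ ρ \ Z ⊆ cay φ C ∧ ∃ c : (Fin (N + k) → ℤ) → ℝ,
        (∀ u ∈ projS (Kh k K) (ρ \ Z), 0 < c u) ∧
        x = ∑ u ∈ projS (Kh k K) (ρ \ Z), c u • toR u ∧
        ∑ u ∈ projS (Kh k K) (ρ \ Z), c u = t)) ∧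
  (∀ ρ ∈ Φ.faces, ∀ ρ' ∈ Φ.faces, ρ ∩ Z = eK (Kh k K) → ρ' ∩ Z = eK (Kh k K) →
    ρ \ Z ⊆ cay A univ → ρ' \ Z ⊆ cay A univ → ∀ c c' : (Fin (N + k) → ℤ) → ℝ,
    (∀ u ∈ projS (Kh k K) (ρ \ Z), 0 < c u) → (∀ u ∈ projS (Kh k K) (ρ' \ Z), 0 < c' u) →
    ∑ u ∈ projS (Kh k K) (ρ \ Z), c u • toR u = ∑ u ∈ projS (Kh k K) (ρ' \ Z), c' u • toR u →
    ρ = ρ')

/-- V3: the volumes. -/
def CellVolC : Prop := ∀ (N k : ℕ) (A : Option (Fin k) → Finset (Fin N → ℤ)) (b : Fin N → ℝ)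
  (L : ℕ) (b' : Fin (N + k) → ℝ) (Z : Finset (Fin (N + k) → ℤ)) (Φ' Φ : Fan (N + k)),
  TriC A b L b' Z Φ' Φ → ∀ (K : Finset (Fin N)), ∀ φ ∈ cellsC A K b,
  ∀ C : Finset (Option (Fin k)),
  volC (prC K φ) C = ∑ ρ ∈ Φ.faces.filter (fun ρ => ρ ∩ Z = eK (Kh k K) ∧ ρ \ Z ⊆ cay φ C ∧
    (ρ \ Z).card = dimC (prC K φ) + C.card), (volZ (Hset A Z) ρ : ℤ)

/-- V4: Euler characteristics through simplices. -/
def Chi1Sum : Prop := ∀ (N k : ℕ) (A : Option (Fin k) → Finset (Fin N → ℤ)) (b : Fin N → ℝ)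
  (L : ℕ) (b' : Fin (N + k) → ℝ) (Z : Finset (Fin (N + k) → ℤ)) (Φ' Φ : Fan (N + k)),
  TriC A b L b' Z Φ' Φ → ∀ (K : Finset (Fin N)), ∀ φ ∈ cellsC A K b,
  chi1 (prC K φ) = ∑ ρ ∈ Φ.faces.filter (fun ρ => ρ ∩ Z = eK (Kh k K) ∧ ρ \ Z ⊆ cay φ univ ∧
    none ∈ cols (ρ \ Z) ∧ (ρ \ Z).card = dimC (prC K φ) + (cols (ρ \ Z)).card),
    (-1) ^ ((ρ \ Z).card - 1) * (volZ (Hset A Z) ρ : ℤ)

/-! ### M. Multiplicities -/

/-- M1: the multiplicity of a cell is the one of each of its maximal simplices. -/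
def LatEq : Prop := ∀ (N k : ℕ) (A : Option (Fin k) → Finset (Fin N → ℤ)) (b : Fin N → ℝ)
  (L : ℕ) (b' : Fin (N + k) → ℝ) (Z : Finset (Fin (N + k) → ℤ)) (Φ' Φ : Fan (N + k)),
  TriC A b L b' Z Φ' Φ → ∀ (K : Finset (Fin N)), ∀ φ ∈ cellsC A K b, ∀ ρ ∈ Φ.faces,
  ρ ∩ Z = eK (Kh k K) → ρ \ Z ⊆ cay φ univ → none ∈ cols (ρ \ Z) →
  (ρ \ Z).card = dimC (prC K φ) + (cols (ρ \ Z)).card →
  latDistZ (Hset A Z) ρ = latC (prC K φ) ∧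
  (dimC (prC K φ) + 1 = (csC (prC K φ)).card → ρ.card = (cs ρ).card)

/-- M2: the cell of a simplex. -/
def CellOf : Prop := ∀ (N k : ℕ) (A : Option (Fin k) → Finset (Fin N → ℤ)) (b : Fin N → ℝ)
  (L : ℕ) (b' : Fin (N + k) → ℝ) (Z : Finset (Fin (N + k) → ℤ)) (Φ' Φ : Fan (N + k)),
  TriC A b L b' Z Φ' Φ → ∀ (K : Finset (Fin N)), ∀ ρ ∈ Φ.faces,
  ρ ∩ Z = eK (Kh k K) → ¬ ρ ⊆ Hset A Z → ρ.card = (cs ρ).card →
  ∃ φ ∈ cellsC A K b, ρ \ Z ⊆ cay φ univ ∧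
    (ρ \ Z).card = dimC (prC K φ) + (cols (ρ \ Z)).card ∧
    dimC (prC K φ) + 1 = (csC (prC K φ)).card

/-- M3: uniqueness of the cell. -/
def CellUnique : Prop := ∀ (N k : ℕ) (A : Option (Fin k) → Finset (Fin N → ℤ)) (b : Fin N → ℝ)
  (L : ℕ) (b' : Fin (N + k) → ℝ) (Z : Finset (Fin (N + k) → ℤ)) (Φ' Φ : Fan (N + k)),
  TriC A b L b' Z Φ' Φ → ∀ (K : Finset (Fin N)), ∀ ρ ∈ Φ.faces,
  ρ ∩ Z = eK (Kh k K) → none ∈ cols (ρ \ Z) →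
  ∀ φ ∈ cellsC A K b, ∀ φ' ∈ cellsC A K b, ρ \ Z ⊆ cay φ univ → ρ \ Z ⊆ cay φ' univ →
    (ρ \ Z).card = dimC (prC K φ) + (cols (ρ \ Z)).card →
    (ρ \ Z).card = dimC (prC K φ') + (cols (ρ \ Z)).card →
    dimC (prC K φ) + 1 = (csC (prC K φ)).card → dimC (prC K φ') + 1 = (csC (prC K φ')).card →
    φ = φ'

/-- M4: the multiplicity of the slice as a sum over simplices. -/
def CellSumC : Prop := ∀ (N k : ℕ) (A : Option (Fin k) → Finset (Fin N → ℤ)) (b : Fin N → ℝ)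
  (L : ℕ) (b' : Fin (N + k) → ℝ) (Z : Finset (Fin (N + k) → ℤ)) (Φ' Φ : Fan (N + k)),
  TriC A b L b' Z Φ' Φ → ∀ (K : Finset (Fin N)) (m : ℕ),
  ∑ φ ∈ (cellsC A K b).filter (fun φ => dimC (prC K φ) + 1 = (csC (prC K φ)).card ∧
      m ∣ latC (prC K φ)), chi1 (prC K φ) =
  ∑ τ ∈ Φ.faces.filter (fun τ => τ ∩ Z = eK (Kh k K) ∧ ¬ τ ⊆ Hset A Z ∧
      τ.card = (cs τ).card ∧ m ∣ latDistZ (Hset A Z) τ),
    (-1) ^ ((τ \ Z).card - 1) * (volZ (Hset A Z) τ : ℤ)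

/-- M5: the multiplicities of the cells are defined. -/
def LatCNe : Prop := ∀ (N k : ℕ) (A : Option (Fin k) → Finset (Fin N → ℤ)) (b : Fin N → ℝ)
  (K : Finset (Fin N)), ∀ φ ∈ cellsC A K b, latC (prC K φ) ≠ 0

/-- M6: the slice at the origin. -/
def CellsEmptyC : Prop := ∀ (N k : ℕ) (A : Option (Fin k) → Finset (Fin N → ℤ)) (b : Fin N → ℝ),
  Good A → (∀ i, 0 < b i) → cellsC A ∅ b = cfacesC A ∧ zetaSC A ∅ b = zetaC A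

/-! ### S. From faces to simplices -/

open Classical in
/-- The completions of `ρ`: one vertex of each missing colour is added. -/
noncomputable def Compl (A : Option (Fin k) → Finset (Fin N → ℤ)) (Φ : Fan (N + k))
    (ρ : Finset (Fin (N + k) → ℤ)) : Finset (Finset (Fin (N + k) → ℤ)) :=
  Φ.faces.filter (fun τ => ρ ⊆ τ ∧ τ ⊆ cay A univ ∧ cols τ = univ ∧
    τ.card + (cols ρ).card = ρ.card + (k + 1))

/-- S1: unique completion in a face. -/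
def UniqueCompl : Prop := ∀ (N k : ℕ) (A : Option (Fin k) → Finset (Fin N → ℤ)) (b : Fin N → ℝ)
  (L : ℕ) (b' : Fin (N + k) → ℝ) (Z : Finset (Fin (N + k) → ℤ)) (Φ' Φ : Fan (N + k)),
  TriC A b L b' Z Φ' Φ → (∀ i, 0 < b i) → ∀ φ ∈ cfacesC A, ∀ ρ ∈ Φ.faces, ρ ⊆ cay φ univ →
  ρ.card = dimC φ + (cols ρ).card → ∃! τ, τ ∈ Compl A Φ ρ ∧ τ ⊆ cay φ univ

/-- `∑ w_i a_i - ∑ w_{N+j} N_j(a)`. -/
noncomputable def nuw (A : Option (Fin k) → Finset (Fin N → ℤ)) (w : Fin (N + k) → ℝ)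
    (a : Fin N → ℤ) : ℝ :=
  ∑ i, w (Fin.castAdd k i) * (a i : ℝ) - ∑ j, w (Fin.natAdd N j) * (NA (A (some j)) a : ℝ)

/-- `chi0`, weighted. -/
noncomputable def chi0w (φ : Option (Fin k) → Finset (Fin N → ℤ)) (w : Fin (N + k) → ℝ) : ℝ :=
  (-1) ^ dimC φ * ∑ J : Finset (Fin k), (-1) ^ J.card * (volC φ (J.image some) : ℝ) *
    ∏ j ∈ Jᶜ, (w (Fin.natAdd N j))⁻¹

/-- `chi1`, weighted. -/
noncomputable def chi1w (φ : Option (Fin k) → Finset (Fin N → ℤ)) (w : Fin (N + k) → ℝ) : ℝ :=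
  (-1) ^ dimC φ * ∑ J : Finset (Fin k), (-1) ^ J.card *
    (volC φ (insert none (J.image some)) : ℝ) * ∏ j ∈ Jᶜ, (w (Fin.natAdd N j))⁻¹

open Classical in
/-- The local topological zeta function, weighted. -/
noncomputable def ZCw (A : Option (Fin k) → Finset (Fin N → ℤ)) (T : Fan N) (s : ℝ)
    (w : Fin (N + k) → ℝ) : ℝ :=
  ∑ φ ∈ cfacesC A, (chi0w φ w + s * chi1w φ w) / (s + 1) *
    ∑ δ ∈ T.faces.filter (fun δ => δ.card + dimC φ = N ∧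
        ∀ a ∈ δ, ∀ c, ∀ v ∈ φ c, a ⬝ᵥ v = NA (A c) a),
      (idx (δ : Set (Fin N → ℤ)) : ℝ) / ∏ a ∈ δ, ((NA (A none) a : ℝ) * s + nuw A w a)

/-- The cone of `δ` lies in the dual cone of `τ`. -/
def InDualC (A : Option (Fin k) → Finset (Fin N → ℤ)) (τ : Finset (Fin (N + k) → ℤ))
    (δ : Finset (Fin N → ℤ)) : Prop :=
  ∀ a ∈ δ, ∀ c, ∀ v : Fin N → ℤ, lift c v ∈ τ → a ⬝ᵥ v = NA (A c) a

open Classical in
/-- The sum over the cones of `T` in the dual cone of `τ`. -/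
noncomputable def JsumC (A : Option (Fin k) → Finset (Fin N → ℤ)) (T : Fan N)
    (τ : Finset (Fin (N + k) → ℤ)) (s : ℝ) (w : Fin (N + k) → ℝ) : ℝ :=
  ∑ δ ∈ T.faces.filter (fun δ => δ.card + τ.card = N + k + 1 ∧ InDualC A τ δ),
    (idx (δ : Set (Fin N → ℤ)) : ℝ) / ∏ a ∈ δ, ((NA (A none) a : ℝ) * s + nuw A w a)

/-- The coefficient of the simplex `ρ`. -/
noncomputable def gco (s : ℝ) (w : Fin (N + k) → ℝ) (ρ : Finset (Fin (N + k) → ℤ)) : ℝ :=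
  (-1) ^ ρ.card * (vol ρ : ℝ) * (if none ∈ cols ρ then -s else 1) *
    ∏ j ∈ univ.filter (fun j : Fin k => some j ∉ cols ρ), (w (Fin.natAdd N j))⁻¹

/-- V5: the coefficient of a face through simplices. -/
def CoefSum : Prop := ∀ (N k : ℕ) (A : Option (Fin k) → Finset (Fin N → ℤ)) (b : Fin N → ℝ)
  (L : ℕ) (b' : Fin (N + k) → ℝ) (Z : Finset (Fin (N + k) → ℤ)) (Φ' Φ : Fan (N + k)),
  TriC A b L b' Z Φ' Φ → (∀ i, 0 < b i) → ∀ φ ∈ cfacesC A, ∀ (s : ℝ) (w : Fin (N + k) → ℝ),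
  chi0w φ w + s * chi1w φ w = ∑ ρ ∈ Φ.faces.filter (fun ρ => ρ ⊆ cay φ univ ∧
    ρ.card = dimC φ + (cols ρ).card), gco s w ρ

/-- S2: the zeta function as a sum over simplices and their completions. -/
def CountC : Prop := ∀ (N k : ℕ) (A : Option (Fin k) → Finset (Fin N → ℤ)) (b : Fin N → ℝ)
  (L : ℕ) (b' : Fin (N + k) → ℝ) (Z : Finset (Fin (N + k) → ℤ)) (Φ' Φ : Fan (N + k)),
  TriC A b L b' Z Φ' Φ → (∀ i, 0 < b i) → ∀ T : Fan N, (∀ c, Adapted (A c) T) →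
  ∀ (s : ℝ) (w : Fin (N + k) → ℝ),
  ZCw A T s w = (1 / (s + 1)) * ∑ ρ ∈ Φ.faces.filter (fun ρ => ρ ⊆ cay A univ),
    gco s w ρ * ∑ τ ∈ Compl A Φ ρ, JsumC A T τ s w

/-- S3: the sum over the completions. -/
def ComplSum : Prop := ∀ (N k : ℕ) (A : Option (Fin k) → Finset (Fin N → ℤ)) (b : Fin N → ℝ)
  (L : ℕ) (b' : Fin (N + k) → ℝ) (Z : Finset (Fin (N + k) → ℤ)) (Φ' Φ : Fan (N + k)),
  TriC A b L b' Z Φ' Φ → ∀ w : Fin (N + k) → ℝ, Φ.Generic w → ∀ s : ℝ,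
  ∀ ρ ∈ Φ.faces, ρ ⊆ cay A univ →
  ∑ τ ∈ Compl A Φ ρ, Φ.Rsum (Hset A Z) τ s w =
    (∏ j ∈ univ.filter (fun j : Fin k => some j ∉ cols ρ), w (Fin.natAdd N j)) *
    ∑ F ∈ Φ.mx.filter (fun F => ρ ⊆ F),
      (if none ∈ cols ρ then 1 else psi (Hset A Z) F w) /
        ((idx (F : Set (Fin (N + k) → ℤ)) : ℝ) * (s + psi (Hset A Z) F w) *
          ∏ u ∈ F \ ρ, crd F w u)

/-- The contribution of a maximal cone to `W`. -/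
noncomputable def Wterm2 (H Z F : Finset (Fin n → ℤ)) (s : ℝ) (w : Fin n → ℝ) : ℝ :=
  (1 / ((idx (F : Set (Fin n → ℤ)) : ℝ) * (s + psi H F w))) *
    ∑ τ ∈ (F \ Z).powerset, (-1) ^ τ.card * (vol τ : ℝ) ^ 2 / ∏ u ∈ F \ τ, crd F w u

/-- The function `W(s, w)`. -/
noncomputable def W2 (Φ : Fan n) (H Z : Finset (Fin n → ℤ)) (s : ℝ) (w : Fin n → ℝ) : ℝ :=
  ∑ F ∈ Φ.mx, Wterm2 H Z F s w

/-- The part of `Z_V` that does not depend on `s`. -/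
noncomputable def R0 (Φ : Fan (N + k)) (Z : Finset (Fin (N + k) → ℤ)) (w : Fin (N + k) → ℝ) : ℝ :=
  ∑ F ∈ Φ.mx, (1 / (idx (F : Set (Fin (N + k) → ℤ)) : ℝ)) *
    ∑ ρ ∈ (F \ Z).powerset.filter (fun ρ => none ∉ cols ρ),
      (-1) ^ ρ.card * (vol ρ : ℝ) ^ 2 / ∏ u ∈ F \ ρ, crd F w u

/-- S4: the relation between the zeta function and `W`. -/
def ZWC : Prop := ∀ (N k : ℕ) (A : Option (Fin k) → Finset (Fin N → ℤ)) (b : Fin N → ℝ)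
  (L : ℕ) (b' : Fin (N + k) → ℝ) (Z : Finset (Fin (N + k) → ℤ)) (Φ' Φ : Fan (N + k)),
  TriC A b L b' Z Φ' Φ → (∀ i, 0 < b i) → ∀ T : Fan N, (∀ c, Adapted (A c) T) →
  ∀ w : Fin (N + k) → ℝ, Φ.Generic w → ∀ s : ℝ, s ≠ -1 →
  (∀ F ∈ Φ.mx, s + psi (Hset A Z) F w ≠ 0) →
  (∀ τ ∈ Φ.faces, τ ⊆ cay A univ → cols τ = univ →
    JsumC A T τ s w = (volZ (Hset A Z) τ : ℝ) * Φ.Rsum (Hset A Z) τ s w) →
  ZCw A T s w = (1 / (s + 1)) * (R0 Φ Z w - s * W2 Φ (Hset A Z) Z s w)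

/-! ### P. The primal formula -/

/-- The integer points of the open cone of `δ`. -/
def opn (δ : Finset (Fin n → ℤ)) : Set (Fin n → ℤ) :=
  {x | ∃ c : (Fin n → ℤ) → ℝ, (∀ a ∈ δ, 0 < c a) ∧ toR x = ∑ a ∈ δ, c a • toR a}

/-- P1: exponential sums over the integer points of an open simplicial cone. -/
def ConeExp : Prop := ∀ (n : ℕ) (δ : Finset (Fin n → ℤ)), Indep δ → ∀ f : (Fin n → ℤ) → ℝ,
  (∀ a ∈ δ, 0 < f a) →
  (∀ ε : ℝ, 0 < ε → Summable (fun x : opn δ =>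
    Real.exp (-(ε * ∑ a ∈ δ, crd δ (toR x.1) a * f a)))) ∧
  Tendsto (fun ε : ℝ => ε ^ δ.card * ∑' x : opn δ,
      Real.exp (-(ε * ∑ a ∈ δ, crd δ (toR x.1) a * f a)))
    (𝓝[>] 0) (𝓝 ((idx (δ : Set (Fin n → ℤ)) : ℝ) / ∏ a ∈ δ, f a))

/-- P2: exponential sums over a set decomposed into open simplicial cones. -/
def ConeSum : Prop := ∀ (n : ℕ) (D : Finset (Finset (Fin n → ℤ))) (f : (Fin n → ℤ) → ℝ) (l : ℕ)
  (S : Set (Fin n → ℤ)), (∀ δ ∈ D, Indep δ ∧ δ.card ≤ l ∧ ∀ a ∈ δ, 0 < f a) →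
  (∀ x, x ∈ S ↔ ∃ δ ∈ D, x ∈ opn δ) →
  (∀ δ ∈ D, ∀ δ' ∈ D, ∀ x, x ∈ opn δ → x ∈ opn δ' → δ = δ') →
  (∀ δ ∈ D, ∀ x ∈ opn δ, f x = ∑ a ∈ δ, crd δ (toR x) a * f a) →
  Tendsto (fun ε : ℝ => ε ^ l * ∑' x : S, Real.exp (-(ε * f x.1))) (𝓝[>] 0)
    (𝓝 (∑ δ ∈ D.filter (fun δ => δ.card = l), (idx (δ : Set (Fin n → ℤ)) : ℝ) / ∏ a ∈ δ, f a))

/-- P3: comparison of the dual cones in `ℝ^N` and in `ℝ^(N+k)`. -/
def JTransfer : Prop := ∀ (N k : ℕ) (A : Option (Fin k) → Finset (Fin N → ℤ)) (b : Fin N → ℝ)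
  (L : ℕ) (b' : Fin (N + k) → ℝ) (Z : Finset (Fin (N + k) → ℤ)) (Φ' Φ : Fan (N + k)),
  TriC A b L b' Z Φ' Φ → ∀ T : Fan N, (∀ c, Adapted (A c) T) →
  ∀ T' : Fan (N + k), Adapted (scay A L) T' →
  ∀ (s s' : ℝ) (w : Fin (N + k) → ℝ), s = L * (s' + ∑ j, w (Fin.natAdd N j)) →
  (∀ a ∈ T.vert, a ≠ 0 → 0 < (NA (A none) a : ℝ) * s + nuw A w a) →
  (∀ a ∈ T'.vert, base a ≠ 0 → 0 < (NA (A none) (base a) : ℝ) * s + nuw A w (base a)) →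
  ∀ τ ∈ Φ.faces, τ ⊆ cay A univ → cols τ = univ →
  JsumC A T τ s w = Jsum (scay A L) Z T' (τ.image (up L (Hset A Z))) s' w

/-- P4: the primal formula. -/
def PrimalC : Prop := ∀ (N k : ℕ) (A : Option (Fin k) → Finset (Fin N → ℤ)) (b : Fin N → ℝ)
  (L : ℕ) (b' : Fin (N + k) → ℝ) (Z : Finset (Fin (N + k) → ℤ)) (Φ' Φ : Fan (N + k)),
  TriC A b L b' Z Φ' Φ → ∀ T : Fan N, (∀ c, Adapted (A c) T) →
  ∀ T' : Fan (N + k), Adapted (scay A L) T' →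
  ∀ (s s' : ℝ) (w : Fin (N + k) → ℝ), s = L * (s' + ∑ j, w (Fin.natAdd N j)) → Φ.Generic w →
  (∀ F ∈ Φ'.mx, s' + psi Z F w ≠ 0) →
  (∀ δ ∈ T'.mx, ∀ a ∈ δ, (NA (scay A L) a : ℝ) * s' + w ⬝ᵥ toR a ≠ 0) →
  (∀ δ ∈ T'.mx, ∀ a ∈ δ, w ⬝ᵥ toR a ≠ 0) →
  (∀ a ∈ T.vert, a ≠ 0 → 0 < (NA (A none) a : ℝ) * s + nuw A w a) →
  (∀ a ∈ T'.vert, base a ≠ 0 → 0 < (NA (A none) (base a) : ℝ) * s + nuw A w (base a)) →
  ∀ τ ∈ Φ.faces, τ ⊆ cay A univ → cols τ = univ →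
  JsumC A T τ s w = (volZ (Hset A Z) τ : ℝ) * Φ.Rsum (Hset A Z) τ s w

/-! ### L. The limit -/

/-- L1: the limit of `W2`. -/
def LimitW2 : Prop := ∀ (n : ℕ) (Φ : Fan n) (H Z : Finset (Fin n → ℤ)) (η : Fin n → ℝ),
  Φ.Generic η →
  ∃ q : ℝ → Polynomial ℝ,
  (∀ a, (∀ σ c, Φ.IsClass σ c → ∑ t ∈ σ \ H, c t = a → Φ.Kill Z σ) → q a = 0) ∧
  ∀ s : ℝ, (∀ F ∈ Φ.mx, s + psi H F (fun _ => 1) ≠ 0) →
    Filter.Tendsto (fun ε : ℝ => W2 Φ H Z s ((fun _ => (1 : ℝ)) + ε • η))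
      (nhdsWithin 0 (Set.Ioi 0))
      (nhds (∑ a ∈ Φ.mx.image (fun F => psi H F (fun _ => (1 : ℝ))),
        (q a).eval (1 / (s + a))))

/-- L2: the arithmetic of a class. -/
def ClassMain2 : Prop := ∀ (n : ℕ) (Φ : Fan n), Φ.Coherent → ∀ (H Z σ : Finset (Fin n → ℤ))
  (c : (Fin n → ℤ) → ℝ), Φ.IsClass σ c →
  ∃ q : ℚ, ∑ t ∈ σ \ H, c t = (q : ℝ) ∧
    (q.den ≠ 1 → Φ.mult H (σ ∩ Z) q.den = 0 → Φ.Kill Z σ)

/-- L3: the limit formula. -/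
def LimitC : Prop := ∀ (N k : ℕ) (A : Option (Fin k) → Finset (Fin N → ℤ)) (b : Fin N → ℝ)
  (L : ℕ) (b' : Fin (N + k) → ℝ) (Z : Finset (Fin (N + k) → ℤ)) (Φ' Φ : Fan (N + k)),
  TriC A b L b' Z Φ' Φ → (∀ i, 0 < b i) → PosNu A → ∃ q : ℝ → Polynomial ℝ,
  (∀ a, (∀ σ c, Φ.IsClass σ c → ∑ t ∈ σ \ Hset A Z, c t = a → Φ.Kill Z σ) → q a = 0) ∧
  ∀ T : Fan N, (∀ c, Adapted (A c) T) → ∃ (r₀ : ℝ) (E : Finset ℝ), ∀ s : ℝ, 0 < s → s ∉ E →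
    ZCw A T s (fun _ => 1) =
      (r₀ - s * ∑ a ∈ Φ.mx.image (fun F => psi (Hset A Z) F (fun _ => (1 : ℝ))),
        (q a).eval (1 / (s + a))) / (s + 1)

/-- L4: evaluation of the rational function. -/
def ZEvalC : Prop := ∀ (N k : ℕ) (A : Option (Fin k) → Finset (Fin N → ℤ)) (T : Fan N),
  Good A → PosNu A → ∀ s : ℝ, 0 < s → (ZC A T).denom.eval (s : ℂ) ≠ 0 ∧
    RatFunc.eval (RingHom.id ℂ) (s : ℂ) (ZC A T) = ((ZCw A T s (fun _ => 1) : ℝ) : ℂ)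

/-- L5: poles of a rational function known at almost all positive real numbers. -/
def PoleLemmaC : Prop := ∀ (Z : RatFunc ℂ) (𝒜 : Finset ℝ) (q : ℝ → Polynomial ℝ) (r₀ : ℝ)
  (E : Finset ℝ),
  (∀ s : ℝ, 0 < s → s ∉ E → (∀ a ∈ 𝒜, s + a ≠ 0) → Z.denom.eval (s : ℂ) ≠ 0 ∧
    RatFunc.eval (RingHom.id ℂ) (s : ℂ) Z =
      (((r₀ - s * ∑ a ∈ 𝒜, (q a).eval (1 / (s + a))) / (s + 1) : ℝ) : ℂ)) →
  ∀ s₀ : ℂ, Z.denom.eval s₀ = 0 → s₀ = -1 ∨ ∃ a ∈ 𝒜, q a ≠ 0 ∧ s₀ = -(a : ℂ)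

/-- L6: adapted fans exist. -/
def DualFanC : Prop := ∀ (N k : ℕ) (A : Option (Fin k) → Finset (Fin N → ℤ)), Good A →
  ∃ T : Fan N, ∀ c, Adapted (A c) T

end Mono.CI
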