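import Pool.Agent.Helper33.Mono.All
import Pool.Agent.Helper90.Mono.FanB
import Pool.Agent.Helper80.Mono.IdxProj
import Pool.Agent.Helper20.Mono.CellDecomp
import Pool.Agent.Helper4.CI.L1
import Pool.Agent.Helper4.CI.L2
import Pool.Agent.Helper4.CI.L6
import Pool.Agent.Helper4.CI.Final
import Pool.Agent.Helper4.CI.SmoothD
import Pool.Agent.Helper15.CI.S1
import Pool.Agent.Helper18.CI.P4
import Pool.Agent.Helper19.CI.S2
import Pool.Agent.Helper22.CI.R4
import Pool.Agent.Helper24.CI.V5
import Pool.Agent.Helper26.CI.P3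
import Pool.Agent.Helper27.CI.V0
import Pool.Agent.Helper3.CI.M2
import Pool.Agent.Helper30.CI.V4
import Pool.Agent.Helper38.CI.L45
import Pool.Agent.Helper42.CI.S4
import Pool.Agent.Helper5.CI.S3
import Pool.Agent.Helper50.CI.P1
import Pool.Agent.Helper57.CI.I34
import Pool.Agent.Helper57.CI.V2
import Pool.Agent.Helper57.CI.V3
import Pool.Agent.Helper6.CI.R3
import Pool.Agent.Helper60.CI.P2
import Pool.Agent.Helper64.CI.M56
import Pool.Agent.Helper65.CI.I12
import Pool.Agent.Helper67.CI.M4
import Pool.Agent.Helper69.CI.R2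
import Pool.Agent.Helper7.CI.V1
import Pool.Agent.Helper72.CI.M3
import Pool.Agent.Helper8.CI.R1
import Pool.Agent.Helper86.CI.I5
import Pool.Agent.Helper98.CI.L3
import Pool.Agent.Helper98.CI.M1

/-! All pieces. -/
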