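import Pool.Agent.Helper20.Mono.BaseL
import Pool.Agent.Helper20.Mono.BaseS

/-!
# Functions on nondegenerate complete intersections: the combinatorial expressions

`h` is a polynomial and `g_1 = … = g_k = 0` are equations in `ℂ^N`.  The *colours* are the elements
of `Option (Fin k)`: the colour `none` belongs to `h`, the colour `some j` to `g_j`.  A system is a
map `A` from colours to finite sets of exponent vectors; `sys h g` is the one of `(h; g)`.

* `cay φ C`   : the Cayley configuration (in `ℤ^(N+k)`) of the sets `φ c`, `c ∈ C`;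
* `dimC φ`    : the dimension of the Minkowski sum of the sets `φ c`;
* `volC φ C`  : the normalised volume of the Cayley polytope if it has the largest possible
                dimension `dimC φ + |C| - 1`, and `0` otherwise; it is the sum of all mixed volumes
                of the polytopes `conv (φ c)`, `c ∈ C`, in dimension `dimC φ`;
* `cfacesC A` : the faces of the system in the directions with positive coordinates;
* `chi0`, `chi1` : the Euler characteristics (Khovanskii) of `{g_φ = 0}` and of
                `{g_φ = 0, h_φ ≠ 0}` in the torus of dimension `dimC φ`;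
* `ZC A T`    : the local topological zeta function of the restriction of `h` to `g = 0`;
* `zetaC A`   : the monodromy zeta function at the origin (Oka);
* `zetaSC A K b` : the product of the monodromy zeta functions at the points of a slice.
-/

namespace Mono.CI

open Finset Mono

variable {N k : ℕ}

/-- The vector of the colour `c`: zero for `none`, the `j`-th basis vector for `some j`. -/
def ind (c : Option (Fin k)) : Fin k → ℤ := fun j => if c = some j then 1 else 0

/-- The point `u` of colour `c` in `ℤ^(N+k)`. -/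
def lift (c : Option (Fin k)) (u : Fin N → ℤ) : Fin (N + k) → ℤ := Fin.append u (ind c)

/-- The exponents of `h` (colour `none`) and of the equations `g_j` (colour `some j`). -/
noncomputable def sys (h : MvPolynomial (Fin N) ℂ) (g : Fin k → MvPolynomial (Fin N) ℂ)
    (c : Option (Fin k)) : Finset (Fin N → ℤ) := c.elim (expo h) (fun j => expo (g j))

/-- The Cayley configuration of the sets `φ c`, `c ∈ C`. -/
def cay (φ : Option (Fin k) → Finset (Fin N → ℤ)) (C : Finset (Option (Fin k))) :
    Finset (Fin (N + k) → ℤ) := C.biUnion fun c => (φ c).image (lift c)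

/-- The dimension of the Minkowski sum of the sets `φ c`. -/
noncomputable def dimC (φ : Option (Fin k) → Finset (Fin N → ℤ)) : ℕ :=
  Module.finrank ℝ (Submodule.span ℝ
    {x : Fin N → ℝ | ∃ c, ∃ u ∈ φ c, ∃ v ∈ φ c, x = toR u - toR v})

open Classical in
/-- The normalised volume of the Cayley polytope of the sets `φ c`, `c ∈ C`, if it has dimension
`dimC φ + |C| - 1`, and `0` if its dimension is smaller.  For `C = ∅` it is `1` if `dimC φ = 0`, and
`0` otherwise. -/
noncomputable def volC (φ : Option (Fin k) → Finset (Fin N → ℤ)) (C : Finset (Option (Fin k))) :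
    ℤ :=
  if C = ∅ then (if dimC φ = 0 then 1 else 0)
  else if dimF (cay φ C) + 1 = dimC φ + C.card then nvol (cay φ C) else 0

/-- The Euler characteristic of `{g_φ = 0}` in the torus of dimension `dimC φ`. -/
noncomputable def chi0 (φ : Option (Fin k) → Finset (Fin N → ℤ)) : ℤ :=
  (-1) ^ dimC φ * ∑ J : Finset (Fin k), (-1) ^ J.card * volC φ (J.image some)

/-- The Euler characteristic of `{g_φ = 0, h_φ ≠ 0}` in the torus of dimension `dimC φ`. -/
noncomputable def chi1 (φ : Option (Fin k) → Finset (Fin N → ℤ)) : ℤ :=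
  (-1) ^ dimC φ * ∑ J : Finset (Fin k), (-1) ^ J.card * volC φ (insert none (J.image some))

open Classical in
/-- The faces of the system `A` in the directions with positive coordinates, each given by the
points of the sets `A c` on it. -/
noncomputable def cfacesC (A : Option (Fin k) → Finset (Fin N → ℤ)) :
    Finset (Option (Fin k) → Finset (Fin N → ℤ)) :=
  (Fintype.piFinset fun c => (A c).powerset).filter
    (fun φ => ∃ a : Fin N → ℤ, (∀ i, 0 < a i) ∧ ∀ c, φ c = face (A c) a)

open Classical in
/-- The local topological zeta function at the origin of the restriction of `h` to `g = 0`: for the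
divisor of `a`, the multiplicity of `h` is `N_h(a)`, and the one of the form `ω` with
`dg_1 ∧ … ∧ dg_k ∧ ω = dx_1 ∧ … ∧ dx_N` is `ν(a) - 1`, `ν(a) = |a| - ∑_j N_{g_j}(a)`. -/
noncomputable def ZC (A : Option (Fin k) → Finset (Fin N → ℤ)) (T : Fan N) : RatFunc ℂ :=
  ∑ φ ∈ cfacesC A,
    (RatFunc.C (chi0 φ : ℂ) + RatFunc.C (chi1 φ : ℂ) * RatFunc.X) / (RatFunc.X + 1) *
    ∑ δ ∈ T.faces.filter (fun δ => δ.card + dimC φ = N ∧
        ∀ a ∈ δ, ∀ c, ∀ v ∈ φ c, a ⬝ᵥ v = NA (A c) a),
      RatFunc.C (idx (δ : Set (Fin N → ℤ)) : ℂ) /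
        ∏ a ∈ δ, (RatFunc.C (NA (A none) a : ℂ) * RatFunc.X +
          RatFunc.C ((∑ i, a i - ∑ j, NA (A (some j)) a : ℤ) : ℂ))

/-- The smallest coordinate subspace containing the sets `φ c`, as a set of indices. -/
def csC (φ : Option (Fin k) → Finset (Fin N → ℤ)) : Finset (Fin N) :=
  univ.filter (fun i => ∃ c, ∃ u ∈ φ c, u i ≠ 0)

/-- The multiplicity: the least positive value on `φ none` of an integral linear form which is
constant on all the sets `φ c`. -/
noncomputable def latC (φ : Option (Fin k) → Finset (Fin N → ℤ)) : ℕ :=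
  sInf {m : ℕ | 0 < m ∧ ∃ κ : Fin N → ℤ,
    (∀ j, ∀ u ∈ φ (some j), ∀ v ∈ φ (some j), κ ⬝ᵥ u = κ ⬝ᵥ v) ∧ ∀ u ∈ φ none, κ ⬝ᵥ u = (m : ℤ)}

/-- The monodromy zeta function at the origin of the restriction of `h` to `g = 0`. -/
noncomputable def zetaC (A : Option (Fin k) → Finset (Fin N → ℤ)) : RatFunc ℂ :=
  ∏ φ ∈ (cfacesC A).filter (fun φ => dimC φ + 1 = (csC φ).card),
    (1 - RatFunc.X ^ latC φ) ^ chi1 φ

/-- Projection along the coordinate subspace of `K`. -/
def prC (K : Finset (Fin N)) (φ : Option (Fin k) → Finset (Fin N → ℤ)) :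
    Option (Fin k) → Finset (Fin N → ℤ) := fun c => projS K (φ c)

open Classical in
/-- The faces of the system met by the slice `x_i = c_i t^{b_i}` (`i ∈ K`), `|x_i| < t^{b_i}`
(`i ∉ K`): the faces in the directions `M κ + l`, `M → ∞`, where `κ ≥ 0` is normalised by
`min_{A none} κ = 1`, and `κ_i = 0`, `l_i = b_i` for `i ∈ K`, `M κ_i + l_i > b_i` for `i ∉ K`. -/
noncomputable def cellsC (A : Option (Fin k) → Finset (Fin N → ℤ)) (K : Finset (Fin N))
    (b : Fin N → ℝ) : Finset (Option (Fin k) → Finset (Fin N → ℤ)) :=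
  (Fintype.piFinset fun c => (A c).powerset).filter (fun φ => ∃ κ l : Fin N → ℝ,
    (∀ i ∈ K, κ i = 0 ∧ l i = b i) ∧ (∀ i, i ∉ K → 0 < κ i ∨ (κ i = 0 ∧ b i < l i)) ∧
    (∀ v ∈ A none, 1 < κ ⬝ᵥ toR v ∨ (κ ⬝ᵥ toR v = 1 ∧ 0 ≤ l ⬝ᵥ toR v)) ∧
    (φ none).Nonempty ∧ φ none = (A none).filter (fun v => κ ⬝ᵥ toR v = 1 ∧ l ⬝ᵥ toR v = 0) ∧
    ∀ j, φ (some j) = (A (some j)).filter (fun v => ∀ w ∈ A (some j),
      κ ⬝ᵥ toR v < κ ⬝ᵥ toR w ∨ (κ ⬝ᵥ toR v = κ ⬝ᵥ toR w ∧ l ⬝ᵥ toR v ≤ l ⬝ᵥ toR w)))

/-- The product of the monodromy zeta functions of the restriction of `h` to `g = 0` at the points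
of the slice. -/
noncomputable def zetaSC (A : Option (Fin k) → Finset (Fin N → ℤ)) (K : Finset (Fin N))
    (b : Fin N → ℝ) : RatFunc ℂ :=
  ∏ φ ∈ (cellsC A K b).filter (fun φ => dimC (prC K φ) + 1 = (csC (prC K φ)).card),
    (1 - RatFunc.X ^ latC (prC K φ)) ^ chi1 (prC K φ)

end Mono.CI
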