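import Pool.Agent.Helper4.CI.Goals
import Pool.Agent.Helper20.Mono.Crd

/-! # D1, D2: dimensions of Cayley configurations -/

namespace Mono.CI.D12h4

open Finset Mono Mono.CI

variable {N k : ℕ}

/-- The inclusion `ℝ^N → ℝ^(N+k)`. -/
def emb (N k : ℕ) : (Fin N → ℝ) →ₗ[ℝ] (Fin (N + k) → ℝ) where
  toFun x := Fin.append x 0
  map_add' x y := by
    funext i
    induction i using Fin.addCases with
    | left i => simp
    | right j => simp
  map_smul' r x := by
    funext i
    induction i using Fin.addCases with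
    | left i => simp
    | right j => simp

theorem emb_left (x : Fin N → ℝ) (i : Fin N) : emb N k x (Fin.castAdd k i) = x i := by
  simp [emb]

theorem emb_right (x : Fin N → ℝ) (j : Fin k) : emb N k x (Fin.natAdd N j) = 0 := by
  simp [emb]

theorem toR_lift_sub (c : Option (Fin k)) (u v : Fin N → ℤ) :
    toR (lift c u) - toR (lift c v) = emb N k (toR u - toR v) := by
  funext i
  induction i using Fin.addCases with
  | left i => simp [lift, emb_left]
  | right j => simp [lift, emb_right]

theorem mem_cay {φ : Option (Fin k) → Finset (Fin N → ℤ)} {C : Finset (Option (Fin k))}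
    {v : Fin (N + k) → ℤ} : v ∈ cay φ C ↔ ∃ c ∈ C, ∃ u ∈ φ c, v = lift c u := by
  simp only [cay, mem_biUnion, mem_image]
  constructor
  · rintro ⟨c, hc, u, hu, rfl⟩; exact ⟨c, hc, u, hu, rfl⟩
  · rintro ⟨c, hc, u, hu, rfl⟩; exact ⟨c, hc, u, hu, rfl⟩

/-- The space of differences. -/
def Lsp (φ : Option (Fin k) → Finset (Fin N → ℤ)) : Submodule ℝ (Fin N → ℝ) :=
  Submodule.span ℝ {x : Fin N → ℝ | ∃ c, ∃ u ∈ φ c, ∃ v ∈ φ c, x = toR u - toR v}

theorem dimC_eq (φ : Option (Fin k) → Finset (Fin N → ℤ)) :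
    dimC φ = Module.finrank ℝ (Lsp φ) := rfl

theorem dimCay : DimCay := by
  classical
  intro N k φ C hC hφ
  obtain ⟨c₀, hc₀⟩ := hC
  choose u hu using hφ
  set E : Finset (Fin (N + k) → ℝ) :=
    (C.erase c₀).image (fun c => toR (lift c (u c)) - toR (lift c₀ (u c₀))) with hE
  set P : Submodule ℝ (Fin (N + k) → ℝ) :=
    (Lsp φ).map (emb N k) ⊔ Submodule.span ℝ (E : Set (Fin (N + k) → ℝ)) with hP
  have key : ∀ v ∈ cay φ C, toR v - toR (lift c₀ (u c₀)) ∈ P := by
    intro v hv
    obtain ⟨c, hc, w, hw, rfl⟩ := mem_cay.1 hv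
    have h1 : toR (lift c w) - toR (lift c₀ (u c₀)) =
        emb N k (toR w - toR (u c)) + (toR (lift c (u c)) - toR (lift c₀ (u c₀))) := by
      rw [← toR_lift_sub]; abel
    rw [h1]
    refine Submodule.add_mem _ ?_ ?_
    · refine Submodule.mem_sup_left (Submodule.mem_map_of_mem (Submodule.subset_span ?_))
      exact ⟨c, w, hw, u c, hu c, rfl⟩
    · by_cases h : c = c₀
      · subst h; simp
      · refine Submodule.mem_sup_right (Submodule.subset_span ?_)
        exact mem_coe.2 (mem_image.2 ⟨c, mem_erase.2 ⟨h, hc⟩, rfl⟩)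
  have hle : vectorSpan ℝ (toR '' (cay φ C : Set (Fin (N + k) → ℤ))) ≤ P := by
    unfold vectorSpan
    rw [Submodule.span_le]
    rintro x hx
    obtain ⟨a, ⟨v, hv, rfl⟩, b, ⟨w, hw, rfl⟩, rfl⟩ := Set.mem_vsub.1 hx
    have h1 := key v hv
    have h2 := key w hw
    have : toR v -ᵥ toR w = (toR v - toR (lift c₀ (u c₀))) - (toR w - toR (lift c₀ (u c₀))) := by
      rw [vsub_eq_sub]; abel
    rw [this]
    exact Submodule.sub_mem _ h1 h2
  have h1 : dimF (cay φ C) ≤ Module.finrank ℝ P := Submodule.finrank_mono hle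
  have h2 : Module.finrank ℝ P ≤ Module.finrank ℝ ((Lsp φ).map (emb N k)) +
      Module.finrank ℝ (Submodule.span ℝ (E : Set (Fin (N + k) → ℝ))) :=
    Submodule.finrank_add_le_finrank_add_finrank _ _
  have h3 : Module.finrank ℝ ((Lsp φ).map (emb N k)) ≤ dimC φ :=
    Submodule.finrank_map_le _ _
  have h4 : Module.finrank ℝ (Submodule.span ℝ (E : Set (Fin (N + k) → ℝ))) ≤ E.card :=
    finrank_span_finset_le_card E
  have h5 : E.card ≤ (C.erase c₀).card := Finset.card_image_le
  rw [Finset.card_erase_of_mem hc₀] at h5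
  have h6 : 1 ≤ C.card := Finset.card_pos.2 ⟨c₀, hc₀⟩
  omega

theorem lift_right (c : Option (Fin k)) (u : Fin N → ℤ) (j : Fin k) :
    lift c u (Fin.natAdd N j) = ind c j := by simp [lift]

theorem lift_left (c : Option (Fin k)) (u : Fin N → ℤ) (i : Fin N) :
    lift c u (Fin.castAdd k i) = u i := by simp [lift]

theorem base_lift (c : Option (Fin k)) (u : Fin N → ℤ) : base (lift c u) = u := by
  funext i; simp [base, lift]

theorem cardColl : CardColl := by
  classical
  intro N k ρ hind hρ
  have hcol : ∀ v ∈ ρ, ∃ c, v = lift c (base v) ∧ c ∈ cols ρ ∧ base v ∈ coll ρ c := by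
    intro v hv
    obtain ⟨c, u, rfl⟩ := hρ v hv
    refine ⟨c, by rw [base_lift], ?_, ?_⟩
    · exact mem_filter.2 ⟨mem_univ _, lift c u, hv, fun j => lift_right c u j⟩
    · exact mem_image.2 ⟨lift c u, mem_filter.2 ⟨hv, fun j => lift_right c u j⟩, rfl⟩
  have hex : ∀ c : Option (Fin k), ∃ v, c ∈ cols ρ → v ∈ ρ ∧ v = lift c (base v) ∧
      base v ∈ coll ρ c := by
    intro c
    by_cases hc : c ∈ cols ρ
    · obtain ⟨v, hv, hvc⟩ := (mem_filter.1 hc).2
      obtain ⟨c', h1, h2, h3⟩ := hcol v hv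
      have hcc : c' = c := by
        have h4 : ind c' = ind c := by
          funext j
          rw [← hvc j, h1, lift_right]
        rcases c' with _ | i <;> rcases c with _ | j
        · rfl
        · have := congrFun h4 j; simp [ind] at this
        · have := congrFun h4 i; simp [ind] at this
        · have := congrFun h4 i
          simp only [ind, Option.some.injEq, if_true] at this
          by_cases hij : j = i
          · rw [hij]
          · rw [if_neg hij] at this; exact absurd this one_ne_zero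
      subst hcc
      exact ⟨v, fun _ => ⟨hv, h1, h3⟩⟩
    · exact ⟨0, fun h => absurd h hc⟩
  choose v hv using hex
  set E : Finset (Fin (N + k) → ℝ) := (cols ρ).image (fun c => toR (v c)) with hE
  set P : Submodule ℝ (Fin (N + k) → ℝ) :=
    (Lsp (coll ρ)).map (emb N k) ⊔ Submodule.span ℝ (E : Set (Fin (N + k) → ℝ)) with hP
  have key : ∀ x ∈ ρ, toR x ∈ P := by
    intro x hx
    obtain ⟨c, h1, h2, h3⟩ := hcol x hx
    obtain ⟨g1, g2, g3⟩ := hv c h2
    have e1 : toR x = emb N k (toR (base x) - toR (base (v c))) + toR (v c) := by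
      rw [← toR_lift_sub c, ← h1, ← g2]; abel
    rw [e1]
    refine Submodule.add_mem _ ?_ ?_
    · refine Submodule.mem_sup_left (Submodule.mem_map_of_mem (Submodule.subset_span ?_))
      exact ⟨c, _, h3, _, g3, rfl⟩
    · refine Submodule.mem_sup_right (Submodule.subset_span ?_)
      exact mem_coe.2 (mem_image.2 ⟨c, h2, rfl⟩)
  have h0 : ρ.card = Module.finrank ℝ (Submodule.span ℝ (Set.range
      (fun u : ρ => toR (u : Fin (N + k) → ℤ)))) := by
    rw [finrank_span_eq_card hind]
    simp
  have hle : Submodule.span ℝ (Set.range (fun u : ρ => toR (u : Fin (N + k) → ℤ))) ≤ P := by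
    rw [Submodule.span_le]
    rintro _ ⟨u, rfl⟩
    exact key u.1 u.2
  have h1 := Submodule.finrank_mono hle
  have h2 : Module.finrank ℝ P ≤ Module.finrank ℝ ((Lsp (coll ρ)).map (emb N k)) +
      Module.finrank ℝ (Submodule.span ℝ (E : Set (Fin (N + k) → ℝ))) :=
    Submodule.finrank_add_le_finrank_add_finrank _ _
  have h3 : Module.finrank ℝ ((Lsp (coll ρ)).map (emb N k)) ≤ dimC (coll ρ) :=
    Submodule.finrank_map_le _ _
  have h4 : Module.finrank ℝ (Submodule.span ℝ (E : Set (Fin (N + k) → ℝ))) ≤ E.card :=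
    finrank_span_finset_le_card E
  have h5 : E.card ≤ (cols ρ).card := Finset.card_image_le
  omega

end Mono.CI.D12h4
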